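import Pool.Agent.Lib.MP_405d56_lc.O.Reins
import Pool.Agent.Lib.MP_405d56_lc.FinExt

/-!
# MP_405d56_lc, outer process: induction over the levels

Rows EX1 ... EX4 (levels), UN1 ... UN6 (disjoint unions), FI1 (the finite extension theorem).
-/

open Set

namespace Pool.MP405d56

/-- the relative one-level statement at level `j` (`Rw` weak separation, `Rs` strong separation, `L` size of the lumps) -/
def WeakLevel (Rw Rs L : ℕ → ℕ) (j : ℕ) : Prop :=
  ∀ N : ℕ, ∃ r : ℕ, ∀ (V : Type) [Finite V] (I I' : Inp V) (F' : Set (Set V)) (M' : SimpleGraph V)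
    (Ω : Set V), I.Sz N → Inv (Rw j) j I →
    Valid (Rs (j - 1)) (L j) j I' F' M' → Agree I I' (I.nbd r Ω) →
    ∃ (F : Set (Set V)) (M : SimpleGraph V), Fam (L j) j I F ∧ IsMat (I.plus F) M ∧
      Inv (Rw (j - 1)) (j - 1) ((I.plus F).sub M) ∧
      (∀ x ∈ Ω, ∀ D : Set V, x ∈ D → (D ∈ F ↔ D ∈ F')) ∧
      ∀ x ∈ Ω, ∀ y, M.Adj x y ↔ M'.Adj x y

/-- the absolute one-level statement -/
def StrongLevel (Rs L : ℕ → ℕ) (j : ℕ) : Prop :=
  ∀ (V : Type) [Finite V] (I : Inp V), Inv (Rs j) j I →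
    ∃ (F : Set (Set V)) (M : SimpleGraph V), Valid (Rs (j - 1)) (L j) j I F M

/-- the constants -/
structure Consts (Rw Rs L : ℕ → ℕ) : Prop where
  w1 : 1 ≤ Rw 1
  s1 : 1 ≤ Rs 1
  lw : ∀ j, 2 ≤ j → L j ≤ Rw j
  ls : ∀ j, 2 ≤ j → L j ≤ Rs j
  weak : ∀ j, 2 ≤ j → WeakLevel Rw Rs L j
  strong : ∀ j, 2 ≤ j → StrongLevel Rs L j

/-- Row LV: the one-level part of helper69 (`weak_level`, `strong_level`, `exists_consts`). -/
theorem exists_levels : ∃ Rw Rs L : ℕ → ℕ, Consts Rw Rs L := by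
  obtain ⟨Rw, Rs, L, h3, h⟩ := exists_consts
  have hT1 : ∀ j t l, l ≤ T1 j t l := by
    intro j t l
    unfold T1
    omega
  refine ⟨Rw, Rs, L, ⟨by have := (h3 1).1; omega, by have := (h3 1).2; omega, fun j hj => ?_,
    fun j hj => ?_, fun j hj N => ?_, fun j hj V _ I hI => ?_⟩⟩
  · exact (hT1 _ _ _).trans (h j hj).2.2.1
  · exact (hT1 _ _ _).trans (h j hj).2.2.2.2
  · obtain ⟨r, hr⟩ := weak_level j (Rw (j - 1)) (L j) (Rs (j - 1)) (Rw j) hj (h j hj).1
      (h j hj).2.1 (h j hj).2.2.1 N 0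
    refine ⟨r, fun V _ I I' F' M' Ω hN hI hV hA => ?_⟩
    obtain ⟨F, M, hF, hM, hInv, hag⟩ := hr V I I' Ω F' M' hN hI hV hA
    exact ⟨F, M, hF, hM, hInv, fun x hx => (hag x (Inp.subset_nbd 0 Ω hx)).1,
      fun x hx => (hag x (Inp.subset_nbd 0 Ω hx)).2⟩
  · exact strong_level hj (h j hj).2.2.2.1 (h j hj).2.2.2.2 hI

/-! ### row EX1 -/

section RowEX1
variable {V : Type} {Rs L : ℕ → ℕ}

theorem Col.congr {j : ℕ} {I : Inp V} {c c' : V → V → ℕ} (h : Col j I c)
    (hcc : ∀ x y, I.H.Adj x y → c' x y = c x y) : Col j I c' where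
  symm := fun x y hxy => by
    rw [hcc x y hxy, hcc y x hxy.symm]
    exact h.symm x y hxy
  le := fun x y hxy => by
    rw [hcc x y hxy]
    exact h.le x y hxy
  proper := fun x y z hxy hxz hne => by
    rw [hcc x y hxy, hcc x z hxz]
    exact h.proper x y z hxy hxz hne
  light := fun x a => by
    have h1 : {p : V × V | I.E x p.1 ∧ I.H.Adj p.1 p.2 ∧ c' p.1 p.2 = a} =
        {p : V × V | I.E x p.1 ∧ I.H.Adj p.1 p.2 ∧ c p.1 p.2 = a} := by
      ext p
      constructor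
      · rintro ⟨h1, h2, h3⟩
        exact ⟨h1, h2, by rw [← hcc _ _ h2]; exact h3⟩
      · rintro ⟨h1, h2, h3⟩
        exact ⟨h1, h2, by rw [hcc _ _ h2]; exact h3⟩
    rw [h1]
    exact h.light x a

theorem SolP.congr {j : ℕ} {I : Inp V} {c c' : V → V → ℕ} (h : SolP Rs L j I c)
    (hcc : ∀ x y, I.H.Adj x y → c' x y = c x y) : SolP Rs L j I c' := by
  match j, h with
  | 0, h => exact h
  | 1, h => exact ⟨h.1, Col.congr h.2 hcc⟩
  | (j + 2), h =>
    obtain ⟨h1, h2, F, M, c₁, hV, hS, hc1, hc2⟩ := h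
    refine ⟨h1, Col.congr h2 hcc, F, M, c₁, hV, hS, fun x y hxy => ?_, fun x y hxy => ?_⟩
    · rw [← hc1 x y hxy]
      exact hcc x y hxy.1.1
    · rw [← hc2 x y hxy]
      exact hcc x y (hV.mat.sub hxy).1

theorem SolP.col {j : ℕ} {I : Inp V} {c : V → V → ℕ} (h : SolP Rs L j I c) :
    Col j I c ∧ Inv (Rs j) j I := by
  match j, h with
  | 0, h => exact h.elim
  | 1, h => exact ⟨h.2, h.1⟩
  | (j + 2), h => exact ⟨h.2.1, h.1⟩

end RowEX1

/-! ### row EX2 -/

section RowEX2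
section EX2
variable {Rw : ℕ → ℕ}

theorem EX2_dg_two {V : Type} [Finite V] {I : Inp V} {R : ℕ} (h1 : 1 ≤ R) (hI : Inv R 1 I)
    {x y : V} (hxy : I.H.Adj x y) (hx : 2 ≤ dg I.H x) (hy : 2 ≤ dg I.H y) : False := by
  have hwx : I.w x = 1 + 1 := le_antisymm (hI.le x) (hx.trans (dg_le_w I x))
  have hwy : I.w y = 1 + 1 := le_antisymm (hI.le y) (hy.trans (dg_le_w I y))
  have hE : I.E x y := hI.far x y hwx hwy (Inp.near_mono h1 (Inp.near_adj hxy))
  have h2 : dg I.H x + dg I.H y ≤ I.w x := by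
    classical
    have := Fintype.ofFinite V
    show _ ≤ cnt I.E I.H x
    rw [cnt_eq_sum, ← Finset.sum_pair (f := fun u => dg I.H u) hxy.ne]
    apply Finset.sum_le_sum_of_subset
    intro u hu
    rw [Finset.mem_insert, Finset.mem_singleton] at hu
    rw [Finset.mem_filter]
    refine ⟨Finset.mem_univ _, ?_⟩
    rcases hu with rfl | rfl
    · exact I.eqv.refl _
    · exact hE
  omega

theorem EX2_two_of_ne {V : Type} [Finite V] {H : SimpleGraph V} {x y z : V} (hy : H.Adj x y)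
    (hz : H.Adj x z) (hne : y ≠ z) : 2 ≤ dg H x := by
  unfold dg
  have h : ({y, z} : Set V) ⊆ {u | H.Adj x u} := by
    rintro u (rfl | hu)
    · exact hy
    · rw [Set.mem_singleton_iff] at hu
      rw [hu]
      exact hz
  calc 2 = ({y, z} : Set V).ncard := (Set.ncard_pair hne).symm
    _ ≤ _ := Set.ncard_le_ncard h (Set.toFinite _)

theorem EX2_nbr {V : Type} [Finite V] {H : SimpleGraph V} {x y z u : V} (hd : dg H x ≤ 2)
    (hy : H.Adj x y) (hz : H.Adj x z) (hne : y ≠ z) (hu : H.Adj x u) : u = y ∨ u = z := by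
  unfold dg at hd
  have h : ({y, z} : Set V) ⊆ {u | H.Adj x u} := by
    rintro u (rfl | hu)
    · exact hy
    · rw [Set.mem_singleton_iff] at hu
      rw [hu]
      exact hz
  have h2 : ({y, z} : Set V) = {u | H.Adj x u} :=
    Set.eq_of_subset_of_ncard_le h (by rw [Set.ncard_pair hne]; exact hd) (Set.toFinite _)
  have h3 : u ∈ ({y, z} : Set V) := by
    rw [h2]
    exact hu
  exact h3

/-- LEVEL ONE with agreement. -/
theorem ext_one (h1 : 1 ≤ Rw 1) (V : Type) [Finite V] (I I' : Inp V) (c' : V → V → ℕ) (Ω : Set V)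
    (hI : Inv (Rw 1) 1 I) (hc : Col 1 I' c') (hA : Agree I I' (I.nbd 6 Ω)) :
    ∃ c, Col 1 I c ∧ ∀ x ∈ Ω, ∀ y, I.H.Adj x y → c x y = c' x y := by
  classical
  have hd2 : ∀ x, dg I.H x ≤ 2 := fun x => (dg_le_w I x).trans (hI.le x)
  have ha : ∀ x, ∃ a, (∃ y, I.H.Adj x y) → I.H.Adj x a := by
    intro x
    by_cases h : ∃ y, I.H.Adj x y
    · obtain ⟨y, hy⟩ := h
      exact ⟨y, fun _ => hy⟩
    · exact ⟨x, fun h' => (h h').elim⟩
  choose a ha using ha
  -- the components inside the neighbourhood of `Ω`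
  let P : V → Prop := fun x => ∀ z, I.H.Reachable x z → z ∈ I.nbd 3 Ω
  have hP : ∀ {x y}, I.H.Adj x y → (P x ↔ P y) := by
    intro x y hxy
    constructor
    · intro h z hz
      exact h z (hxy.reachable.trans hz)
    · intro h z hz
      exact h z (hxy.symm.reachable.trans hz)
  have hP' : ∀ {x y}, P x → I.H.Adj x y → I'.H.Adj x y := by
    intro x y hx hxy
    exact (hA x (Inp.nbd_mono (by omega) subset_rfl (hx x (SimpleGraph.Reachable.refl x))) y).1.1 hxy
  let T : V → V → Prop := fun x y => 2 ≤ dg I.H x ∧ y ≠ a x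
  let c₀ : V → V → ℕ := fun x y => if T x y ∨ T y x then 1 else 0
  have c₀_symm : ∀ x y, c₀ x y = c₀ y x := by
    intro x y
    show (if T x y ∨ T y x then 1 else 0) = (if T y x ∨ T x y then 1 else 0)
    exact if_congr or_comm rfl rfl
  have c₀_le : ∀ x y, c₀ x y ≤ 1 := by
    intro x y
    show (if T x y ∨ T y x then 1 else 0) ≤ 1
    split_ifs <;> omega
  have c₀_eq : ∀ x y, 2 ≤ dg I.H x → I.H.Adj x y → c₀ x y = if y ≠ a x then 1 else 0 := by
    intro x y hx hxy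
    show (if T x y ∨ T y x then 1 else 0) = _
    have h2 : ¬ T y x := fun h => EX2_dg_two h1 hI hxy hx h.1
    by_cases h : y ≠ a x
    · rw [if_pos (Or.inl ⟨hx, h⟩), if_pos h]
    · rw [if_neg (by rintro (h3 | h3); exacts [h h3.2, h2 h3]), if_neg h]
  have c₀_proper : ∀ x y z, I.H.Adj x y → I.H.Adj x z → y ≠ z → c₀ x y ≠ c₀ x z := by
    intro x y z hy hz hne
    have hx := EX2_two_of_ne hy hz hne
    rw [c₀_eq x y hx hy, c₀_eq x z hx hz]
    have h3 := EX2_nbr (hd2 x) hy hz hne (ha x ⟨y, hy⟩)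
    rcases h3 with h3 | h3
    · rw [if_neg (by rw [h3]; exact fun h => h rfl), if_pos (by rw [h3]; exact hne.symm)]
      exact zero_ne_one
    · rw [if_pos (by rw [h3]; exact hne), if_neg (by rw [h3]; exact fun h => h rfl)]
      exact one_ne_zero
  refine ⟨fun x y => if P x then c' x y else c₀ x y, ⟨?_, ?_, ?_, ?_⟩, ?_⟩
  · intro x y hxy
    by_cases h : P x
    · show (if P x then c' x y else c₀ x y) = (if P y then c' y x else c₀ y x)
      rw [if_pos h, if_pos ((hP hxy).1 h)]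
      exact hc.symm x y (hP' h hxy)
    · show (if P x then c' x y else c₀ x y) = (if P y then c' y x else c₀ y x)
      rw [if_neg h, if_neg (fun h' => h ((hP hxy).2 h'))]
      exact c₀_symm x y
  · intro x y hxy
    show (if P x then c' x y else c₀ x y) ≤ 1
    split_ifs with h
    · exact hc.le x y (hP' h hxy)
    · exact c₀_le x y
  · intro x y z hy hz hne
    show (if P x then c' x y else c₀ x y) ≠ (if P x then c' x z else c₀ x z)
    split_ifs with h
    · exact hc.proper x y z (hP' h hy) (hP' h hz) hne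
    · exact c₀_proper x y z hy hz hne
  · intro x b
    refine le_trans (Set.ncard_le_ncard ?_ (Set.toFinite _)) (hI.le x)
    rintro p ⟨h3, h4, _⟩
    exact ⟨h3, h4⟩
  · intro x hx y hxy
    have hPx : P x := by
      intro z hz
      have key : ∀ z, I.H.Reachable x z → z = x ∨ I.H.Adj x z ∨ ∃ u, I.H.Adj x u ∧ I.H.Adj u z := by
        intro z hz
        rw [SimpleGraph.reachable_iff_reflTransGen] at hz
        induction hz with
        | refl => exact Or.inl rfl
        | @tail z z' _ hzz ih =>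
          rcases ih with rfl | h | ⟨u, hu, huz⟩
          · exact Or.inr (Or.inl hzz)
          · exact Or.inr (Or.inr ⟨z, h, hzz⟩)
          · by_cases hzx : z = x
            · rw [hzx] at hzz
              exact Or.inr (Or.inl hzz)
            · have h3 : 2 ≤ dg I.H u := EX2_two_of_ne hu.symm huz (fun h => hzx h.symm)
              have h4 : z' = u := by
                by_contra h5
                exact EX2_dg_two h1 hI huz h3 (EX2_two_of_ne hzz huz.symm h5)
              rw [h4]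
              exact Or.inr (Or.inl hu)
      rcases key z hz with rfl | h | ⟨u, hu, huz⟩
      · exact Inp.subset_nbd 3 Ω hx
      · exact ⟨x, hx, Inp.near_mono (by omega) (Inp.near_adj h)⟩
      · exact ⟨x, hx, Inp.near_mono (n := 1 + 1) (by omega)
          (Inp.near_trans (Inp.near_adj hu) (Inp.near_adj huz))⟩
    show (if P x then c' x y else c₀ x y) = c' x y
    rw [if_pos hPx]
end EX2

end RowEX2

/-! ### row EX3 -/

section RowEX3
variable {Rw Rs L : ℕ → ℕ}

/-- the distances of `.sub M` are at least those of the input -/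
theorem EX3_near_sub {V : Type} {J : Inp V} {M : SimpleGraph V} {n : ℕ} {x y : V}
    (h : (J.sub M).near n x y) : J.near n x y := by
  have h1 := Inp.near_iff_mono (I := J.sub M) (I' := J) (k := 1) (fun a b hab => by
    apply Inp.near_Q
    refine ⟨hab.1, ?_⟩
    rcases hab.2 with h2 | h2
    · exact Or.inl h2.1
    · exact Or.inr h2) h
  rwa [Nat.one_mul] at h1

theorem ext_all (hC : Consts Rw Rs L) : ∀ j, 1 ≤ j → ∀ N : ℕ, ∃ r : ℕ, ∀ (V : Type) [Finite V]
    (I I' : Inp V) (c' : V → V → ℕ) (Ω : Set V), I.Sz N → Inv (Rw j) j I → SolP Rs L j I' c' →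
    Agree I I' (I.nbd r Ω) → ∃ c, Col j I c ∧ ∀ x ∈ Ω, ∀ y, I.H.Adj x y → c x y = c' x y := by
  intro j hj
  induction j, hj using Nat.le_induction with
  | base =>
    intro N
    refine ⟨6, fun V _ I I' c' Ω _ hI hS hA => ?_⟩
    have hS' : Inv (Rs 1) 1 I' ∧ Col 1 I' c' := hS
    exact ext_one hC.w1 V I I' c' Ω hI hS'.2 hA
  | succ j hj ih =>
    intro N
    obtain ⟨i, rfl⟩ : ∃ i, j = i + 1 := ⟨j - 1, by omega⟩
    set l := L (i + 2) with hl
    obtain ⟨r', hr'⟩ := ih (N * (N + (i + 3) + 1) ^ l + N)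
    obtain ⟨r₀, hr₀⟩ := hC.weak (i + 2) (by omega) N
    set R2 := (l + 2) * r' + l + 5 with hR2
    refine ⟨r₀ + R2 + l + 3, fun V _ I I' c' Ω hN hI hS hA => ?_⟩
    have hS' : Inv (Rs (i + 2)) (i + 2) I' ∧ Col (i + 2) I' c' ∧
      ∃ (F : Set (Set V)) (M : SimpleGraph V) (c'' : V → V → ℕ),
        Valid (Rs (i + 1)) (L (i + 2)) (i + 2) I' F M ∧ SolP Rs L (i + 1) ((I'.plus F).sub M) c'' ∧
        (∀ x y, ((I'.plus F).sub M).H.Adj x y → c' x y = c'' x y) ∧
        ∀ x y, M.Adj x y → c' x y = i + 2 := hS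
    obtain ⟨-, hcol', F', M', c'', hV, hS'', hc'', hM'⟩ := hS'
    -- the next level
    obtain ⟨F, M, hF, hM, hInv, hFF, hMM⟩ := hr₀ V I I' F' M' (I.nbd (R2 + l + 3) Ω) hN hI hV
      (hA.mono ((Inp.nbd_nbd Ω).trans (Inp.nbd_mono (by omega) subset_rfl)))
    have hpl : Agree (I.plus F) (I'.plus F') (I.nbd R2 Ω) :=
      plus_agree hF hV.fam (hA.mono (Inp.nbd_mono (by omega) subset_rfl)) hFF
    have hsub : Agree ((I.plus F).sub M) ((I'.plus F').sub M') (I.nbd R2 Ω) := by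
      intro x hx y
      have h1 := hpl x hx y
      have h2 := hMM x (Inp.nbd_mono (by omega) subset_rfl hx) y
      refine ⟨?_, h1.2⟩
      show (I.plus F).H.Adj x y ∧ ¬ M.Adj x y ↔ (I'.plus F').H.Adj x y ∧ ¬ M'.Adj x y
      rw [h1.1, h2]
    have hnb : ((I.plus F).sub M).nbd r' (I.nbd (l + 3) Ω) ⊆ I.nbd R2 Ω := by
      rintro x ⟨a, ha, hx⟩
      have h1 := plus_near hF (EX3_near_sub hx)
      refine Inp.nbd_mono ?_ subset_rfl (Inp.mem_nbd_of_near ha h1)
      show l + 3 + (l + 2) * r' ≤ R2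
      omega
    have hsz : ((I.plus F).sub M).Sz (N * (N + (i + 3) + 1) ^ l + N) := by
      intro x
      exact plus_size hF hN (fun x => (dg_le_w I x).trans (hI.le x)) x
    obtain ⟨c₀, hc₀, hag⟩ := hr' V ((I.plus F).sub M) ((I'.plus F').sub M') c''
      (I.nbd (l + 3) Ω) hsz hInv hS'' (hsub.mono hnb)
    have hc₁ : Col (i + 2) (I.plus F) (addM M (i + 2) c₀) := col_addM (k := i + 1) hM hc₀
    obtain ⟨c, hc, hcp, hcD⟩ := reinsert (k := i + 1) hF hI.le
      (fun x y hx hy hxy => hI.far x y hx hy (Inp.near_mono (hC.lw (i + 2) (by omega)) hxy))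
      hc₁ c'
    -- agreement on the remaining edges
    have key : ∀ u ∈ I.nbd (l + 3) Ω, ∀ v, (I.plus F).H.Adj u v →
        addM M (i + 2) c₀ u v = c' u v := by
      intro u hu v huv
      have hu2 : u ∈ I.nbd R2 Ω := Inp.nbd_mono (by omega) subset_rfl hu
      have hu1 : u ∈ I.nbd (R2 + l + 3) Ω := Inp.nbd_mono (by omega) subset_rfl hu
      unfold addM
      by_cases hMuv : M.Adj u v
      · rw [if_pos hMuv]
        exact (hM' u v ((hMM u hu1 v).1 hMuv)).symm
      · rw [if_neg hMuv]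
        have h1 : ((I.plus F).sub M).H.Adj u v := ⟨huv, hMuv⟩
        rw [hag u hu v h1, hc'' u v ((hsub u hu2 v).1.1 h1)]
    refine ⟨c, hc, fun x hx y hxy => ?_⟩
    by_cases hpxy : (I.plus F).H.Adj x y
    · rw [hcp x y hpxy]
      exact key x (Inp.subset_nbd _ Ω hx) y hpxy
    · obtain ⟨D, hD, hxD, hyD⟩ : ∃ D ∈ F, x ∈ D ∧ y ∈ D := by
        by_contra hcon
        push Not at hcon
        exact hpxy ⟨hxy, fun D hD hh => hcon D hD hh.1 hh.2⟩
      have hball : I.nbd 1 D ⊆ I.nbd (l + 1) Ω := by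
        rintro z ⟨a, ha, hz⟩
        exact ⟨x, hx, Inp.near_trans ((hF.lump D hD).small x hxD a ha) hz⟩
      refine hcD D hD (okon_of_agree hD hcol' (hA.mono (hball.trans
        (Inp.nbd_mono (by omega) subset_rfl))) ?_) x hxD y hyD hxy
      intro u hu v huv
      exact key u (Inp.nbd_mono (by omega) subset_rfl (hball hu)) v huv

end RowEX3

/-! ### row EX4 -/

section RowEX4
open Pool.MP405d56

section EX4
variable {Rw Rs L : ℕ → ℕ}

/-- distances of `J.sub M` are at least those of `J` -/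
theorem EX4_near_sub {V : Type} {J : Inp V} {M : SimpleGraph V} {n : ℕ} {x y : V}
    (h : (J.sub M).near n x y) : J.near n x y := by
  have hQ : ∀ x y, (J.sub M).Q.Adj x y → J.near 1 x y := by
    intro x y hxy
    refine Inp.near_Q ⟨hxy.1, ?_⟩
    rcases hxy.2 with h1 | h1
    · exact Or.inl h1.1
    · exact Or.inr h1
  have := Inp.near_iff_mono hQ h
  rwa [Nat.one_mul] at this

/-- the next input of valid data satisfies the invariant -/
theorem EX4_inv {V : Type} {R l j : ℕ} {I : Inp V} {F : Set (Set V)} {M : SimpleGraph V}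
    (h : Valid R l (j + 1) I F M) : Inv R j ((I.plus F).sub M) where
  le := h.le
  far := fun x y hx hy hn => h.far x y (Or.inl hx) (Or.inl hy) (EX4_near_sub hn)

/-- PROOF. Induction on `j`. `j = 1`: `ext_one` (for `Rs`) with `Ω = ∅` and
`I' = ⟨⊥, Eq, eq_equivalence⟩`, `c' = 0`. Step: `strong (j+1)`, induction hypothesis, `col_addM`,
`reinsert`. -/
theorem strong_exists (hC : Consts Rw Rs L) : ∀ j, 1 ≤ j → ∀ (V : Type) [Finite V] (I : Inp V),
    Inv (Rs j) j I → ∃ c, SolP Rs L j I c := by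
  intro j hj
  induction j, hj using Nat.le_induction with
  | base =>
    intro V _ I hI
    obtain ⟨c, hc, -⟩ := ext_one (Rw := Rs) hC.s1 V I ⟨⊥, Eq, eq_equivalence⟩ (fun _ _ => 0) ∅ hI
      { symm := fun x y _ => rfl
        le := fun x y _ => Nat.zero_le _
        proper := fun x y z h => absurd h (by simp)
        light := fun x a => by
          have : {p : V × V | (⟨⊥, Eq, eq_equivalence⟩ : Inp V).E x p.1 ∧
              (⟨⊥, Eq, eq_equivalence⟩ : Inp V).H.Adj p.1 p.2 ∧ (0 : ℕ) = a} = ∅ := by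
            ext p
            simp
          simp only [this, Set.ncard_empty]
          exact Nat.zero_le _ }
      (by
        rintro x ⟨a, ha, -⟩
        exact absurd ha (Set.notMem_empty a))
    exact ⟨c, hI, hc⟩
  | succ j hj ih =>
    intro V _ I hI
    obtain ⟨i, rfl⟩ : ∃ i, j = i + 1 := ⟨j - 1, by omega⟩
    obtain ⟨F, M, hV⟩ := hC.strong (i + 1 + 1) (by omega) V I hI
    have hV' : Valid (Rs (i + 1)) (L (i + 1 + 1)) (i + 1 + 1) I F M := hV
    obtain ⟨c', hc'⟩ := ih V ((I.plus F).sub M) (EX4_inv hV')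
    have hcol : Col (i + 1) ((I.plus F).sub M) c' := hc'.col.1
    have h1 := col_addM hV'.mat hcol
    obtain ⟨c, hc, hcp, -⟩ := reinsert (k := i + 1) hV'.fam (fun x => hI.le x)
      (fun x y hx hy hn => hI.far x y hx hy
        (Inp.near_mono (hC.ls (i + 1 + 1) (by omega)) hn)) h1 c'
    refine ⟨c, hI, hc, F, M, c', hV', hc', ?_, ?_⟩
    · intro x y hxy
      have hxy' : (I.plus F).H.Adj x y ∧ ¬ M.Adj x y := hxy
      rw [hcp x y hxy'.1]
      unfold addM
      rw [if_neg hxy'.2]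
    · intro x y hxy
      rw [hcp x y (hV'.mat.sub hxy)]
      unfold addM
      rw [if_pos hxy]

end EX4

end RowEX4

/-! ## disjoint unions -/

/-- the trivial input of a graph -/
def triv {V : Type} (G : SimpleGraph V) : Inp V where
  H := G
  E := Eq
  eqv := eq_equivalence

/-- union of graphs on the pieces -/
def UG {ι V : Type} {W : ι → Type} (e : ∀ i, W i → V) (hd : ∀ i k a b, e i a = e k b → i = k)
    (he : ∀ i, Function.Injective (e i)) (M : ∀ i, SimpleGraph (W i)) : SimpleGraph V where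
  Adj x y := ∃ i a b, e i a = x ∧ e i b = y ∧ (M i).Adj a b
  symm := ⟨fun _ _ ⟨i, a, b, ha, hb, h⟩ => ⟨i, b, a, hb, ha, h.symm⟩⟩
  loopless := ⟨fun _ ⟨i, a, b, ha, hb, h⟩ => h.ne (he i (ha.trans hb.symm))⟩

/-- union of families of sets -/
def UF {ι V : Type} {W : ι → Type} (e : ∀ i, W i → V) (F : ∀ i, Set (Set (W i))) : Set (Set V) :=
  {D | ∃ i, ∃ D0 ∈ F i, D = e i '' D0}

/-- `I` is the disjoint union of the inputs `J i` (embedded by `e i`), and further isolated points in singleton classes -/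
structure IsUnion {ι V : Type} {W : ι → Type} (J : ∀ i, Inp (W i)) (e : ∀ i, W i → V) (I : Inp V) :
    Prop where
  inj : ∀ i, Function.Injective (e i)
  disj : ∀ i k a b, e i a = e k b → i = k
  adj : ∀ x y, I.H.Adj x y ↔ ∃ i a b, e i a = x ∧ e i b = y ∧ (J i).H.Adj a b
  cls : ∀ x y, I.E x y ↔ x = y ∨ ∃ i a b, e i a = x ∧ e i b = y ∧ (J i).E a b

/-! ### row UN1 -/

section RowUN1
variable {ι V : Type} {W : ι → Type} {J : ∀ i, Inp (W i)} {e : ∀ i, W i → V} {I : Inp V}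

theorem IsUnion.adj_left (hU : IsUnion J e I) (i : ι) (a : W i) (y : V) :
    I.H.Adj (e i a) y ↔ ∃ b, y = e i b ∧ (J i).H.Adj a b := by
  rw [hU.adj]
  constructor
  · rintro ⟨k, a', b, ha, hb, h⟩
    obtain rfl := hU.disj k i a' a ha
    obtain rfl := hU.inj k ha
    exact ⟨b, hb.symm, h⟩
  · rintro ⟨b, rfl, h⟩
    exact ⟨i, a, b, rfl, rfl, h⟩

theorem IsUnion.E_left (hU : IsUnion J e I) (i : ι) (a : W i) (y : V) :
    I.E (e i a) y ↔ ∃ b, y = e i b ∧ (J i).E a b := by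
  rw [hU.cls]
  constructor
  · rintro (h | ⟨k, a', b, ha, hb, h⟩)
    · exact ⟨a, h.symm, (J i).eqv.refl a⟩
    · obtain rfl := hU.disj k i a' a ha
      obtain rfl := hU.inj k ha
      exact ⟨b, hb.symm, h⟩
  · rintro ⟨b, rfl, h⟩
    exact Or.inr ⟨i, a, b, rfl, rfl, h⟩

theorem UN1_Q_left (hU : IsUnion J e I) (i : ι) (a : W i) (y : V) :
    I.Q.Adj (e i a) y ↔ ∃ b, y = e i b ∧ (J i).Q.Adj a b := by
  show (e i a ≠ y ∧ (I.H.Adj (e i a) y ∨ I.E (e i a) y)) ↔ _
  rw [IsUnion.adj_left hU, IsUnion.E_left hU]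
  constructor
  · rintro ⟨hne, ⟨b, rfl, h⟩ | ⟨b, rfl, h⟩⟩
    · exact ⟨b, rfl, fun hab => hne (by rw [hab]), Or.inl h⟩
    · exact ⟨b, rfl, fun hab => hne (by rw [hab]), Or.inr h⟩
  · rintro ⟨b, rfl, hne, h⟩
    refine ⟨fun hab => hne (hU.inj i hab), ?_⟩
    rcases h with h | h
    · exact Or.inl ⟨b, rfl, h⟩
    · exact Or.inr ⟨b, rfl, h⟩

/-- PROOF: induction on `n` with `near_succ`. -/
theorem IsUnion.near_left (hU : IsUnion J e I) (n : ℕ) (i : ι) (a : W i) (y : V) :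
    I.near n (e i a) y ↔ ∃ b, y = e i b ∧ (J i).near n a b := by
  induction n generalizing y with
  | zero =>
    rw [Inp.near_zero]
    constructor
    · rintro rfl
      exact ⟨a, rfl, Inp.near_zero.2 rfl⟩
    · rintro ⟨b, rfl, h⟩
      rw [Inp.near_zero.1 h]
  | succ n ih =>
    rw [Inp.near_succ, ih]
    constructor
    · rintro (⟨b, rfl, h⟩ | ⟨z, hz, hzy⟩)
      · exact ⟨b, rfl, Inp.near_succ.2 (Or.inl h)⟩
      · obtain ⟨c, rfl, hc⟩ := (ih z).1 hz
        obtain ⟨b, rfl, hb⟩ := (UN1_Q_left hU i c y).1 hzy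
        exact ⟨b, rfl, Inp.near_succ.2 (Or.inr ⟨c, hc, hb⟩)⟩
    · rintro ⟨b, rfl, h⟩
      rcases Inp.near_succ.1 h with h | ⟨c, hc, hb⟩
      · exact Or.inl ⟨b, rfl, h⟩
      · exact Or.inr ⟨e i c, (ih _).2 ⟨c, rfl, hc⟩, (UN1_Q_left hU i c _).2 ⟨b, rfl, hb⟩⟩

theorem UN1_UG_left (hU : IsUnion J e I) (M : ∀ i, SimpleGraph (W i)) (i : ι) (a : W i) (y : V) :
    (UG e hU.disj hU.inj M).Adj (e i a) y ↔ ∃ b, y = e i b ∧ (M i).Adj a b := by
  constructor
  · rintro ⟨k, a', b, ha, hb, h⟩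
    obtain rfl := hU.disj k i a' a ha
    obtain rfl := hU.inj k ha
    exact ⟨b, hb.symm, h⟩
  · rintro ⟨b, rfl, h⟩
    exact ⟨i, a, b, rfl, rfl, h⟩

/-- PROOF: the darts of the union at the class of `e i a` are the images of the darts of `M i`. -/
theorem IsUnion.cnt_eq [Finite V] (hU : IsUnion J e I) (M : ∀ i, SimpleGraph (W i)) (i : ι) (a : W i) :
    cnt I.E (UG e hU.disj hU.inj M) (e i a) = cnt (J i).E (M i) a := by
  unfold cnt
  have hinj : Function.Injective (fun p : W i × W i => (e i p.1, e i p.2)) := by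
    intro p q h
    simp only [Prod.mk.injEq] at h
    exact Prod.ext (hU.inj i h.1) (hU.inj i h.2)
  rw [← Set.ncard_image_of_injective _ hinj]
  congr 1
  ext ⟨u, v⟩
  simp only [Set.mem_ofPred_eq, Set.mem_image, Prod.mk.injEq, Prod.exists]
  constructor
  · rintro ⟨h1, h2⟩
    obtain ⟨b, rfl, hb⟩ := (IsUnion.E_left hU i a u).1 h1
    obtain ⟨c, rfl, hc⟩ := (UN1_UG_left hU M i b v).1 h2
    exact ⟨b, c, ⟨hb, hc⟩, rfl, rfl⟩
  · rintro ⟨b, c, ⟨hb, hc⟩, rfl, rfl⟩
    exact ⟨(IsUnion.E_left hU i a _).2 ⟨b, rfl, hb⟩, (UN1_UG_left hU M i b _).2 ⟨c, rfl, hc⟩⟩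

theorem UN1_H_eq (hU : IsUnion J e I) : I.H = UG e hU.disj hU.inj (fun i => (J i).H) := by
  ext x y
  exact hU.adj x y

theorem IsUnion.w_eq [Finite V] (hU : IsUnion J e I) (i : ι) (a : W i) : I.w (e i a) = (J i).w a := by
  unfold Inp.w
  rw [UN1_H_eq hU]
  exact IsUnion.cnt_eq hU (fun i => (J i).H) i a

/-- a point of positive weight lies in a piece -/
theorem IsUnion.w_pos [Finite V] (hU : IsUnion J e I) {x : V} (hx : 0 < I.w x) : ∃ i a, e i a = x := by
  unfold Inp.w cnt at hx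
  rw [Set.ncard_pos] at hx
  obtain ⟨⟨u, v⟩, h1, h2⟩ := hx
  rcases (hU.cls x u).1 h1 with rfl | ⟨i, a, b, ha, _, _⟩
  · obtain ⟨i, a, b, ha, _, _⟩ := (hU.adj _ _).1 h2
    exact ⟨i, a, ha⟩
  · exact ⟨i, a, ha⟩

end RowUN1

/-! ### row UN2 -/

section RowUN2
open Pool.MP405d56

variable {ι V : Type} {W : ι → Type} {J : ∀ i, Inp (W i)} {e : ∀ i, W i → V} {I : Inp V}

theorem IsUnion.inv [Finite V] (hU : IsUnion J e I) {R j : ℕ} (h : ∀ i, Inv R j (J i)) :
    Inv R j I := by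
  refine ⟨fun x => ?_, fun x y hx hy hn => ?_⟩
  · rcases Nat.eq_zero_or_pos (I.w x) with h0 | h0
    · omega
    · obtain ⟨i, a, rfl⟩ := hU.w_pos h0
      rw [hU.w_eq]
      exact (h i).le a
  · obtain ⟨i, a, rfl⟩ := hU.w_pos (x := x) (by omega)
    rw [hU.near_left] at hn
    obtain ⟨b, rfl, hb⟩ := hn
    rw [hU.w_eq] at hx hy
    rw [hU.E_left]
    exact ⟨b, rfl, (h i).far a b hx hy hb⟩

theorem IsUnion.col [Finite V] (hU : IsUnion J e I) {j : ℕ} {c : V → V → ℕ}
    {cc : ∀ i, W i → W i → ℕ} (hcc : ∀ i a b, (J i).H.Adj a b → c (e i a) (e i b) = cc i a b)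
    (h : ∀ i, Col j (J i) (cc i)) : Col j I c := by
  refine ⟨fun x y hxy => ?_, fun x y hxy => ?_, fun x y z hxy hxz hyz => ?_, fun x a => ?_⟩
  · obtain ⟨i, a, b, rfl, rfl, hab⟩ := (hU.adj x y).1 hxy
    rw [hcc i a b hab, hcc i b a hab.symm]
    exact (h i).symm a b hab
  · obtain ⟨i, a, b, rfl, rfl, hab⟩ := (hU.adj x y).1 hxy
    rw [hcc i a b hab]
    exact (h i).le a b hab
  · obtain ⟨i, a, b, rfl, rfl, hab⟩ := (hU.adj x y).1 hxy
    rw [hU.adj_left] at hxz
    obtain ⟨b', rfl, hab'⟩ := hxz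
    rw [hcc i a b hab, hcc i a b' hab']
    exact (h i).proper a b b' hab hab' (fun hb => hyz (by rw [hb]))
  · by_cases hx : ∃ i a, e i a = x
    · obtain ⟨i, b, rfl⟩ := hx
      have : Finite (W i) := Finite.of_injective _ (hU.inj i)
      have hsub : {p : V × V | I.E (e i b) p.1 ∧ I.H.Adj p.1 p.2 ∧ c p.1 p.2 = a} ⊆
          (fun q : W i × W i => (e i q.1, e i q.2)) ''
            {q : W i × W i | (J i).E b q.1 ∧ (J i).H.Adj q.1 q.2 ∧ cc i q.1 q.2 = a} := by
        rintro ⟨p, q⟩ ⟨h1, h2, h3⟩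
        simp only at h1 h2 h3
        rw [hU.E_left] at h1
        obtain ⟨b1, rfl, hb1⟩ := h1
        rw [hU.adj_left] at h2
        obtain ⟨b2, rfl, hb2⟩ := h2
        refine ⟨(b1, b2), ⟨hb1, hb2, ?_⟩, rfl⟩
        simp only
        rw [← hcc i b1 b2 hb2]
        exact h3
      refine (Set.ncard_le_ncard hsub (Set.toFinite _)).trans ?_
      refine (Set.ncard_image_le (Set.toFinite _)).trans ?_
      exact (h i).light b a
    · have hemp : {p : V × V | I.E x p.1 ∧ I.H.Adj p.1 p.2 ∧ c p.1 p.2 = a} = ∅ := by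
        apply Set.eq_empty_of_forall_notMem
        rintro ⟨p, q⟩ ⟨h1, h2, -⟩
        simp only at h1 h2
        rcases (hU.cls x p).1 h1 with rfl | ⟨i, a1, b1, hx1, -, -⟩
        · obtain ⟨i, a1, b1, hx1, -, -⟩ := (hU.adj _ _).1 h2
          exact hx ⟨i, a1, hx1⟩
        · exact hx ⟨i, a1, hx1⟩
      rw [hemp, Set.ncard_empty]
      omega

end RowUN2

/-! ### row UN3 -/

section RowUN3
section UN
variable {ι V : Type} {W : ι → Type} {J : ∀ i, Inp (W i)} {e : ∀ i, W i → V} {I : Inp V}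

theorem UN3_adj (hU : IsUnion J e I) (i : ι) (a b : W i) :
    I.H.Adj (e i a) (e i b) ↔ (J i).H.Adj a b := by
  rw [hU.adj_left]
  constructor
  · rintro ⟨b', hb, h⟩
    rwa [hU.inj i hb]
  · intro h
    exact ⟨b, rfl, h⟩

theorem UN3_E (hU : IsUnion J e I) (i : ι) (a b : W i) :
    I.E (e i a) (e i b) ↔ (J i).E a b := by
  rw [hU.E_left]
  constructor
  · rintro ⟨b', hb, h⟩
    rwa [hU.inj i hb]
  · intro h
    exact ⟨b, rfl, h⟩

theorem UN3_near (hU : IsUnion J e I) (n : ℕ) (i : ι) (a b : W i) :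
    I.near n (e i a) (e i b) ↔ (J i).near n a b := by
  rw [hU.near_left]
  constructor
  · rintro ⟨b', hb, h⟩
    rwa [hU.inj i hb]
  · intro h
    exact ⟨b, rfl, h⟩

theorem UN3_e2 (hU : IsUnion J e I) (i : ι) (D : Set (W i)) :
    e2 I.H (e i '' D) = e2 (J i).H D := by
  unfold e2
  rw [← Set.ncard_image_of_injective {p : W i × W i | p.1 ∈ D ∧ p.2 ∈ D ∧ (J i).H.Adj p.1 p.2}
    (f := Prod.map (e i) (e i)) ((hU.inj i).prodMap (hU.inj i))]
  congr 1
  ext ⟨x, y⟩
  simp only [Set.mem_ofPred_eq, Set.mem_image, Prod.exists, Prod.map_apply, Prod.mk.injEq]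
  constructor
  · rintro ⟨⟨a, ha, rfl⟩, ⟨b, hb, rfl⟩, h⟩
    exact ⟨a, b, ⟨ha, hb, (UN3_adj hU i a b).1 h⟩, rfl, rfl⟩
  · rintro ⟨a, b, ⟨ha, hb, h⟩, rfl, rfl⟩
    exact ⟨⟨a, ha, rfl⟩, ⟨b, hb, rfl⟩, (UN3_adj hU i a b).2 h⟩

/-- the induced graphs are isomorphic -/
noncomputable def UN3_iso (hU : IsUnion J e I) (i : ι) (D : Set (W i)) :
    (J i).H.induce D ≃g I.H.induce (e i '' D) where
  toEquiv := Equiv.Set.image (e i) D (hU.inj i)
  map_rel_iff' := by
    rintro ⟨a, ha⟩ ⟨b, hb⟩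
    exact UN3_adj hU i a b

theorem UN3_lump [Finite V] (hU : IsUnion J e I) {L j : ℕ} (i : ι) (D : Set (W i)) :
    IsLump L j I (e i '' D) ↔ IsLump L j (J i) D := by
  have hc : (e i '' D).ncard = D.ncard := Set.ncard_image_of_injective D (hU.inj i)
  constructor
  · intro h
    refine ⟨?_, ?_, ?_, ?_, ?_, ?_⟩
    · rw [← hc]; exact h.odd
    · exact (UN3_iso hU i D).connected_iff.2 h.conn
    · intro x hx y hy hxy
      exact hU.inj i (h.one _ (Set.mem_image_of_mem _ hx) _ (Set.mem_image_of_mem _ hy)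
        ((UN3_E hU i x y).2 hxy))
    · intro x hx
      rw [← hU.w_eq i x]
      exact h.must _ (Set.mem_image_of_mem _ hx)
    · have := h.dense
      rwa [hc, UN3_e2 hU] at this
    · intro x hx y hy
      exact (UN3_near hU L i x y).1 (h.small _ (Set.mem_image_of_mem _ hx) _
        (Set.mem_image_of_mem _ hy))
  · intro h
    refine ⟨?_, ?_, ?_, ?_, ?_, ?_⟩
    · rw [hc]; exact h.odd
    · exact (UN3_iso hU i D).connected_iff.1 h.conn
    · rintro _ ⟨x, hx, rfl⟩ _ ⟨y, hy, rfl⟩ hxy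
      rw [h.one x hx y hy ((UN3_E hU i x y).1 hxy)]
    · rintro _ ⟨x, hx, rfl⟩
      rw [hU.w_eq i x]
      exact h.must x hx
    · rw [hc, UN3_e2 hU]
      exact h.dense
    · rintro _ ⟨x, hx, rfl⟩ _ ⟨y, hy, rfl⟩
      exact (UN3_near hU L i x y).2 (h.small x hx y hy)

/-- a lump of the union lies in one piece -/
theorem UN3_piece [Finite V] (hU : IsUnion J e I) {L j : ℕ} (hj : 1 ≤ j) {D : Set V}
    (h : IsLump L j I D) : ∃ i, ∃ D0 : Set (W i), D = e i '' D0 := by
  obtain ⟨⟨x, hx⟩⟩ := h.conn.nonempty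
  obtain ⟨i, a, rfl⟩ := hU.w_pos (lt_of_lt_of_le (by omega) (h.must x hx))
  refine ⟨i, e i ⁻¹' D, ?_⟩
  rw [Set.image_preimage_eq_inter_range, eq_comm, Set.inter_eq_left]
  have key : ∀ (u v : D), (I.H.induce D).Walk u v → (u : V) ∈ Set.range (e i) →
      (v : V) ∈ Set.range (e i) := by
    intro u v p
    induction p with
    | nil => exact fun h => h
    | @cons u v w hadj p ih =>
      rintro ⟨a', ha'⟩
      apply ih
      have hadj' : I.H.Adj (e i a') v.1 := by
        rw [ha']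
        exact hadj
      obtain ⟨b, hb, _⟩ := (hU.adj_left i a' v.1).1 hadj'
      exact ⟨b, hb.symm⟩
  intro y hy
  obtain ⟨p⟩ := h.conn.preconnected ⟨e i a, hx⟩ ⟨y, hy⟩
  exact key _ _ p ⟨a, rfl⟩

theorem UN3_conf (hU : IsUnion J e I) (i : ι) (D D' : Set (W i)) :
    Conf I (e i '' D) (e i '' D') ↔ Conf (J i) D D' := by
  constructor
  · rintro ⟨_, ⟨x, hx, rfl⟩, _, ⟨y, hy, rfl⟩, h⟩
    exact ⟨x, hx, y, hy, (UN3_E hU i x y).1 h⟩
  · rintro ⟨x, hx, y, hy, h⟩
    exact ⟨e i x, ⟨x, hx, rfl⟩, e i y, ⟨y, hy, rfl⟩, (UN3_E hU i x y).2 h⟩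

theorem IsUnion.fam [Finite V] (hU : IsUnion J e I) {L j : ℕ} (hj : 1 ≤ j)
    {F : ∀ i, Set (Set (W i))} (h : ∀ i, Fam L j (J i) (F i)) : Fam L j I (UF e F) := by
  refine ⟨?_, ?_, ?_⟩
  · rintro _ ⟨i, D, hD, rfl⟩
    exact (UN3_lump hU i D).2 ((h i).lump D hD)
  · rintro _ ⟨i, D, hD, rfl⟩ _ ⟨k, D', hD', rfl⟩ hc
    have hik : k = i := by
      obtain ⟨_, ⟨x, hx, rfl⟩, _, ⟨y, hy, rfl⟩, hxy⟩ := hc
      obtain ⟨b, hb, _⟩ := (hU.E_left i x (e k y)).1 hxy
      exact hU.disj k i y b hb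
    subst hik
    rw [(h k).disj D hD D' hD' ((UN3_conf hU k D D').1 hc)]
  · intro D hD
    obtain ⟨i, D0, rfl⟩ := UN3_piece hU hj hD
    obtain ⟨D', hD', hc⟩ := (h i).max D0 ((UN3_lump hU i D0).1 hD)
    exact ⟨e i '' D', ⟨i, D', hD', rfl⟩, (UN3_conf hU i D0 D').2 hc⟩

end UN

end RowUN3

/-! ### row UN4 -/

section RowUN4
section UN
variable {ι V : Type} {W : ι → Type} {J : ∀ i, Inp (W i)} {e : ∀ i, W i → V} {I : Inp V}

/-- a point of the image of the piece `k` which is `e i a` comes from `a` -/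
theorem UN4_mem (hU : IsUnion J e I) {F : ∀ i, Set (Set (W i))} {D : Set V} (hD : D ∈ UF e F)
    {i : ι} {a b : W i} (ha : e i a ∈ D) (hb : e i b ∈ D) :
    ∃ D0 ∈ F i, a ∈ D0 ∧ b ∈ D0 := by
  obtain ⟨k, D0, hD0, rfl⟩ := hD
  obtain ⟨a', ha', hae⟩ := ha
  obtain ⟨b', hb', hbe⟩ := hb
  have hki := hU.disj _ _ _ _ hae
  subst hki
  have h1 := hU.inj _ hae
  have h2 := hU.inj _ hbe
  subst h1
  subst h2
  exact ⟨D0, hD0, ha', hb'⟩

theorem IsUnion.plus (hU : IsUnion J e I) (F : ∀ i, Set (Set (W i))) :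
    IsUnion (fun i => (J i).plus (F i)) e (I.plus (UF e F)) where
  inj := hU.inj
  disj := hU.disj
  adj := by
    intro x y
    constructor
    · rintro ⟨hxy, hD⟩
      obtain ⟨i, a, b, rfl, rfl, hab⟩ := (hU.adj x y).1 hxy
      refine ⟨i, a, b, rfl, rfl, hab, ?_⟩
      rintro D0 hD0 ⟨ha, hb⟩
      exact hD (e i '' D0) ⟨i, D0, hD0, rfl⟩ ⟨⟨a, ha, rfl⟩, ⟨b, hb, rfl⟩⟩
    · rintro ⟨i, a, b, rfl, rfl, hab, hD⟩
      refine ⟨(hU.adj _ _).2 ⟨i, a, b, rfl, rfl, hab⟩, ?_⟩
      rintro D hDD ⟨ha, hb⟩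
      obtain ⟨D0, hD0, h1, h2⟩ := UN4_mem hU hDD ha hb
      exact hD D0 hD0 ⟨h1, h2⟩
  cls := by
    intro x y
    constructor
    · intro h
      induction h with
      | rel x y h =>
        rcases h with h | ⟨D, ⟨i, D0, hD0, rfl⟩, ⟨a, ha, rfl⟩, ⟨b, hb, rfl⟩⟩
        · rcases (hU.cls x y).1 h with h | ⟨i, a, b, rfl, rfl, hab⟩
          · exact Or.inl h
          · exact Or.inr ⟨i, a, b, rfl, rfl, Relation.EqvGen.rel _ _ (Or.inl hab)⟩
        · exact Or.inr ⟨i, a, b, rfl, rfl, Relation.EqvGen.rel _ _ (Or.inr ⟨D0, hD0, ha, hb⟩)⟩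
      | refl x => exact Or.inl rfl
      | symm x y _ ih =>
        rcases ih with h | ⟨i, a, b, h1, h2, hab⟩
        · exact Or.inl h.symm
        · exact Or.inr ⟨i, b, a, h2, h1, ((J i).plus (F i)).eqv.symm hab⟩
      | trans x y z _ _ ih1 ih2 =>
        rcases ih1 with h | ⟨i, a, b, h1, h2, hab⟩
        · rw [h]
          exact ih2
        · rcases ih2 with h | ⟨k, a', b', h1', h2', hab'⟩
          · rw [← h]
            exact Or.inr ⟨i, a, b, h1, h2, hab⟩
          · have hik := hU.disj _ _ _ _ (h2.trans h1'.symm)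
            subst hik
            have hba := hU.inj _ (h2.trans h1'.symm)
            subst hba
            exact Or.inr ⟨i, a, b', h1, h2', ((J i).plus (F i)).eqv.trans hab hab'⟩
    · rintro (rfl | ⟨i, a, b, rfl, rfl, hab⟩)
      · exact (I.plus (UF e F)).eqv.refl x
      · have key : ∀ a b : W i, ((J i).plus (F i)).E a b →
            (I.plus (UF e F)).E (e i a) (e i b) := by
          intro a b h
          induction h with
          | rel a b h =>
            rcases h with h | ⟨D0, hD0, ha, hb⟩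
            · exact Relation.EqvGen.rel _ _ (Or.inl ((hU.cls _ _).2 (Or.inr ⟨i, a, b, rfl, rfl, h⟩)))
            · exact Relation.EqvGen.rel _ _ (Or.inr ⟨e i '' D0, ⟨i, D0, hD0, rfl⟩,
                ⟨a, ha, rfl⟩, ⟨b, hb, rfl⟩⟩)
          | refl a => exact (I.plus (UF e F)).eqv.refl _
          | symm a b _ ih => exact (I.plus (UF e F)).eqv.symm ih
          | trans a b c _ _ ih1 ih2 => exact (I.plus (UF e F)).eqv.trans ih1 ih2
        exact key a b hab

theorem IsUnion.sub (hU : IsUnion J e I) (M : ∀ i, SimpleGraph (W i)) :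
    IsUnion (fun i => (J i).sub (M i)) e (I.sub (UG e hU.disj hU.inj M)) where
  inj := hU.inj
  disj := hU.disj
  adj := by
    intro x y
    constructor
    · rintro ⟨hxy, hM⟩
      obtain ⟨i, a, b, rfl, rfl, hab⟩ := (hU.adj x y).1 hxy
      exact ⟨i, a, b, rfl, rfl, hab, fun h => hM ⟨i, a, b, rfl, rfl, h⟩⟩
    · rintro ⟨i, a, b, rfl, rfl, hab, hM⟩
      refine ⟨(hU.adj _ _).2 ⟨i, a, b, rfl, rfl, hab⟩, ?_⟩
      rintro ⟨k, a', b', h1, h2, h⟩
      have hki := hU.disj _ _ _ _ h1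
      subst hki
      have h3 := hU.inj _ h1
      have h4 := hU.inj _ h2
      subst h3
      subst h4
      exact hM h
  cls := hU.cls

end UN

end RowUN4

/-! ### row UN5 -/

section RowUN5
section UN
variable {ι V : Type} {W : ι → Type} {J : ∀ i, Inp (W i)} {e : ∀ i, W i → V} {I : Inp V}

/-! ### UN5: `Valid` -/

theorem IsUnion.isMat [Finite V] (hU : IsUnion J e I) {M : ∀ i, SimpleGraph (W i)}
    (h : ∀ i, IsMat (J i) (M i)) : IsMat I (UG e hU.disj hU.inj M) := by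
  refine ⟨?_, ?_, ?_⟩
  · intro x y hxy
    obtain ⟨i, a, b, ha, hb, hab⟩ := hxy
    exact (hU.adj x y).2 ⟨i, a, b, ha, hb, (h i).sub hab⟩
  · rintro x y z ⟨i, a, b, ha, hb, hab⟩ ⟨k, a', c, ha', hc, hac⟩
    have hik : i = k := hU.disj i k a a' (ha.trans ha'.symm)
    subst hik
    have haa : a = a' := hU.inj i (ha.trans ha'.symm)
    subst haa
    rw [← hb, ← hc, (h i).mat a b c hab hac]
  · intro x
    by_cases hx : ∃ i a, e i a = x
    · obtain ⟨i, a, rfl⟩ := hx
      rw [hU.cnt_eq M i a]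
      exact (h i).two a
    · have hempty : {p : V × V | I.E x p.1 ∧ (UG e hU.disj hU.inj M).Adj p.1 p.2} = ∅ := by
        ext p
        simp only [Set.mem_ofPred_eq, Set.mem_empty_iff_false, iff_false, not_and]
        intro hE hA
        obtain ⟨i, a, b, ha, _, _⟩ := hA
        rcases (hU.cls x p.1).1 hE with h1 | ⟨k, a', _, ha', _, _⟩
        · exact hx ⟨i, a, ha.trans h1.symm⟩
        · exact hx ⟨k, a', ha'⟩
      unfold cnt
      rw [hempty, Set.ncard_empty]
      exact Nat.zero_le _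

/-- PROOF: `IsUnion.fam`, `IsUnion.plus`, `IsUnion.sub`, `IsUnion.isMat`; `le`, `far`: points of positive weight lie in a piece (`w_pos`), weights and distances are those of the piece. (`j ≥ 1`, so the
points in `far` have positive weight.) -/
theorem IsUnion.valid [Finite V] (hU : IsUnion J e I) {R L j : ℕ} (hj : 1 ≤ j)
    {F : ∀ i, Set (Set (W i))} {M : ∀ i, SimpleGraph (W i)}
    (h : ∀ i, Valid R L j (J i) (F i) (M i)) : Valid R L j I (UF e F) (UG e hU.disj hU.inj M) := by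
  have hP := hU.plus F
  have hS := hP.sub M
  have hpiece : ∀ x, (((I.plus (UF e F)).sub (UG e hU.disj hU.inj M)).w x = j ∨
      (I.plus (UF e F)).w x = j + 1) → ∃ i a, e i a = x := by
    intro x hx
    rcases hx with hx | hx
    · exact hS.w_pos (by rw [show ((I.plus (UF e F)).sub (UG e hP.disj hP.inj M)).w x = j from hx]
                         omega)
    · exact hP.w_pos (by rw [hx]; omega)
  have htrans : ∀ i a, (((I.plus (UF e F)).sub (UG e hU.disj hU.inj M)).w (e i a) = j ∨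
      (I.plus (UF e F)).w (e i a) = j + 1) →
      ((((J i).plus (F i)).sub (M i)).w a = j ∨ ((J i).plus (F i)).w a = j + 1) := by
    intro i a hx
    rcases hx with hx | hx
    · left
      rw [← hS.w_eq i a]
      exact hx
    · right
      rw [← hP.w_eq i a]
      exact hx
  refine ⟨hU.fam hj (fun i => (h i).fam), IsUnion.isMat hP (fun i => (h i).mat), ?_, ?_⟩
  · intro x
    by_contra hcon
    push Not at hcon
    obtain ⟨i, a, rfl⟩ := hS.w_pos (x := x) (lt_of_le_of_lt (Nat.zero_le _) hcon)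
    have h1 := (h i).le a
    rw [← hS.w_eq i a] at h1
    exact absurd h1 (not_le.2 hcon)
  · intro x y hx hy hn
    obtain ⟨i, a, rfl⟩ := hpiece x hx
    obtain ⟨b, rfl, hab⟩ := (hP.near_left R i a y).1 hn
    have h1 := (h i).far a b (htrans i a hx) (htrans i b hy) hab
    exact (hP.E_left i a (e i b)).2 ⟨b, rfl, h1⟩

end UN

end RowUN5

/-! ### row UN6 -/

section RowUN6
section UN
variable {ι V : Type} {W : ι → Type} {J : ∀ i, Inp (W i)} {e : ∀ i, W i → V} {I : Inp V}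

theorem UN6_aux [Finite V] {R L : ℕ → ℕ} : ∀ (j : ℕ) (_ : 1 ≤ j) (J : ∀ i, Inp (W i)) (I : Inp V)
    (_ : IsUnion J e I) (c : V → V → ℕ) (cc : ∀ i, W i → W i → ℕ)
    (_ : ∀ i a b, (J i).H.Adj a b → c (e i a) (e i b) = cc i a b)
    (_ : ∀ i, SolP R L j (J i) (cc i)), SolP R L j I c
  | 0, hj, _, _, _, _, _, _, _ => absurd hj (by omega)
  | 1, _, J, I, hU, c, cc, hcc, h => ⟨hU.inv (fun i => (h i).1), hU.col hcc (fun i => (h i).2)⟩
  | (j + 2), _, J, I, hU, c, cc, hcc, h => by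
    have h1 : ∀ i, Inv (R (j + 2)) (j + 2) (J i) := fun i => (h i).1
    have h2 : ∀ i, Col (j + 2) (J i) (cc i) := fun i => (h i).2.1
    have h3 : ∀ i, ∃ (F : Set (Set (W i))) (M : SimpleGraph (W i)) (c' : W i → W i → ℕ),
        Valid (R (j + 1)) (L (j + 2)) (j + 2) (J i) F M ∧
        SolP R L (j + 1) (((J i).plus F).sub M) c' ∧
        (∀ x y, (((J i).plus F).sub M).H.Adj x y → cc i x y = c' x y) ∧
        ∀ x y, M.Adj x y → cc i x y = j + 2 := fun i => (h i).2.2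
    choose F M c'' hval hsol hceq hcM using h3
    refine ⟨hU.inv h1, hU.col hcc h2, UF e F, UG e hU.disj hU.inj M, c,
      hU.valid (by omega) hval, ?_, fun _ _ _ => rfl, ?_⟩
    · exact UN6_aux (j + 1) (by omega) _ _ ((hU.plus F).sub M) c c''
        (fun i a b hab => (hcc i a b hab.1.1).trans (hceq i a b hab)) hsol
    · rintro x y ⟨i, a, b, rfl, rfl, hab⟩
      rw [hcc i a b ((hval i).mat.sub hab).1]
      exact hcM i a b hab

theorem SolP.union [Finite V] {R L : ℕ → ℕ} {j : ℕ} (hj : 1 ≤ j) (hU : IsUnion J e I)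
    {c : V → V → ℕ} {cc : ∀ i, W i → W i → ℕ}
    (hcc : ∀ i a b, (J i).H.Adj a b → c (e i a) (e i b) = cc i a b)
    (h : ∀ i, SolP R L j (J i) (cc i)) : SolP R L j I c :=
  UN6_aux j hj J I hU c cc hcc h
end UN

end RowUN6

/-! ### row FI1 -/

section RowFI1
theorem FI1_Q {V : Type} (G : SimpleGraph V) : (triv G).Q = G := by
  ext x y
  constructor
  · rintro ⟨h1, h2 | h2⟩
    · exact h2
    · exact absurd h2 h1
  · intro h
    exact ⟨h.ne, Or.inl h⟩

theorem FI1_near {V : Type} (G : SimpleGraph V) (n : ℕ) (x y : V) :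
    (triv G).near n x y ↔ MP405B.wd G n x y := by
  unfold Inp.near MP405B.wd
  rw [FI1_Q]

theorem FI1_w {V : Type} (G : SimpleGraph V) (x : V) :
    (triv G).w x = (G.neighborSet x).ncard := by
  unfold Inp.w cnt
  have h1 : {p : V × V | (triv G).E x p.1 ∧ (triv G).H.Adj p.1 p.2} =
      (fun y => (x, y)) '' (G.neighborSet x) := by
    ext ⟨a, b⟩
    constructor
    · rintro ⟨h1, h2⟩
      have h3 : x = a := h1
      subst h3
      exact ⟨b, h2, rfl⟩
    · rintro ⟨y, hy, h⟩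
      obtain ⟨rfl, rfl⟩ := Prod.mk.inj h
      exact ⟨rfl, hy⟩
  rw [h1]
  exact Set.ncard_image_of_injective _ fun y y' h => (Prod.mk.inj h).2

theorem FI1_inv {V : Type} (G : SimpleGraph V) {R d : ℕ}
    (hG : ∀ v, (G.neighborSet v).ncard ≤ d) : Inv R d (triv G) := by
  constructor
  · intro x
    rw [FI1_w]
    exact (hG x).trans (Nat.le_succ d)
  · intro x y hx
    rw [FI1_w] at hx
    have := hG x
    omega

theorem FI1_sz {V : Type} (G : SimpleGraph V) : (triv G).Sz 1 := by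
  intro x
  have h1 : {y | (triv G).E x y} = {x} := by
    ext y
    exact ⟨fun h => Eq.symm h, fun h => Eq.symm h⟩
  rw [h1, Set.ncard_singleton]

theorem FI1_prop {V : Type} {G : SimpleGraph V} {d : ℕ} {c : V → V → ℕ}
    (h : Col d (triv G) c) : MP405B.PropCol d G c :=
  ⟨fun x y hxy => ⟨Nat.lt_succ_of_le (h.le x y hxy), h.symm x y hxy⟩,
    fun x y z hxy hxz hyz => h.proper x y z hxy hxz hyz⟩

/-- transport along an embedding onto all the edges -/
theorem FI1_union {V ι : Type} {W : ι → Type} [Finite V] {R L : ℕ → ℕ} {d : ℕ} (hd : 1 ≤ d)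
    (e : ∀ i, W i → V) (inj : ∀ i, Function.Injective (e i))
    (disj : ∀ i k a b, e i a = e k b → i = k) (H : ∀ i, SimpleGraph (W i)) (G : SimpleGraph V)
    (adj : ∀ x y, G.Adj x y ↔ ∃ i a b, e i a = x ∧ e i b = y ∧ (H i).Adj a b)
    (c : V → V → ℕ) (cc : ∀ i, W i → W i → ℕ) (hcc : ∀ i a b, c (e i a) (e i b) = cc i a b)
    (h : ∀ i, SolP R L d (triv (H i)) (cc i)) : SolP R L d (triv G) c := by
  have hU : IsUnion (fun i => triv (H i)) e (triv G) := by
    refine ⟨inj, disj, adj, fun x y => ?_⟩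
    constructor
    · intro h
      exact Or.inl h
    · rintro (h | ⟨i, a, b, ha, hb, h⟩)
      · exact h
      · have h' : a = b := h
        show x = y
        rw [← ha, ← hb, h']
  exact SolP.union hd hU (fun i a b _ => hcc i a b) h

/-- the finite extension theorem -/
theorem finExt (d : ℕ) (hd : 1 ≤ d) : Nonempty (MP405B.FinExt d) := by
  obtain ⟨Rw, Rs, L, hC⟩ := exists_levels
  obtain ⟨r₀, hr⟩ := ext_all hC d hd 1
  refine ⟨⟨r₀ + 1, fun V _ G c => SolP Rs L d (triv G) c, ?_, ?_, ?_, ?_, ?_, ?_⟩⟩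
  · intro V _ G c h
    exact FI1_prop (SolP.col h).1
  · intro V W _ _ e G c h
    refine FI1_union (ι := Unit) (W := fun _ => W) hd (fun _ => e.symm)
      (fun _ => e.symm.injective) (fun _ _ _ _ _ => rfl) (fun _ => G) (G.comap e) ?_ _
      (fun _ => c) ?_ (fun _ => h)
    · intro x y
      constructor
      · intro hxy
        exact ⟨(), e x, e y, e.symm_apply_apply x, e.symm_apply_apply y, hxy⟩
      · rintro ⟨_, a, b, rfl, rfl, hab⟩
        show G.Adj (e (e.symm a)) (e (e.symm b))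
        rw [e.apply_symm_apply, e.apply_symm_apply]
        exact hab
    · intro _ a b
      show c (e (e.symm a)) (e (e.symm b)) = c a b
      rw [e.apply_symm_apply, e.apply_symm_apply]
  · intro V _ G c c' hcc h
    exact SolP.congr h fun x y hxy => (hcc x y hxy).symm
  · intro V _ G hG
    exact strong_exists hC d hd V (triv G) (FI1_inv G hG)
  · intro V I _ G c f hf h
    refine FI1_union (ι := I) (W := fun i => {v // f v = i}) hd (fun _ => Subtype.val)
      (fun _ => Subtype.val_injective) ?_ (fun _ => G.comap Subtype.val) G ?_ c _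
      (fun _ _ _ => rfl) h
    · rintro i k ⟨a, ha⟩ ⟨b, hb⟩ hab
      have hab' : a = b := hab
      rw [← ha, ← hb, hab']
    · intro x y
      constructor
      · intro hxy
        exact ⟨f x, ⟨x, rfl⟩, ⟨y, (hf x y hxy).symm⟩, rfl, rfl, hxy⟩
      · rintro ⟨i, a, b, rfl, rfl, hab⟩
        exact hab
  · intro V _ G hG A c1 h
    -- the graph outside `A`
    let G' : SimpleGraph V :=
      { Adj := fun x y => x ∉ A ∧ y ∉ A ∧ G.Adj x y
        symm := ⟨fun _ _ h => ⟨h.2.1, h.1, h.2.2.symm⟩⟩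
        loopless := ⟨fun _ h => h.2.2.ne rfl⟩ }
    have hG' : SolP Rs L d (triv G') c1 := by
      refine FI1_union (ι := Unit) (W := fun _ => {v // v ∉ A}) hd (fun _ => Subtype.val)
        (fun _ => Subtype.val_injective) (fun _ _ _ _ _ => rfl) (fun _ => G.comap Subtype.val)
        G' ?_ c1 _ (fun _ _ _ => rfl) (fun _ => h)
      intro x y
      constructor
      · rintro ⟨hx, hy, hxy⟩
        exact ⟨(), ⟨x, hx⟩, ⟨y, hy⟩, rfl, rfl, hxy⟩
      · rintro ⟨_, a, b, rfl, rfl, hab⟩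
        exact ⟨a.2, b.2, hab⟩
    let Ω : Set V := {x | ∀ a ∈ A, ¬ MP405B.wd G (r₀ + 1) a x}
    have hfar : ∀ x ∈ (triv G).nbd r₀ Ω, x ∉ A ∧ ∀ y, G.Adj x y → y ∉ A := by
      rintro x ⟨z, hz, hzx⟩
      constructor
      · intro hx
        exact hz x hx ((FI1_near G _ x z).1 (Inp.near_mono (Nat.le_succ r₀) (Inp.near_symm hzx)))
      · intro y hxy hy
        refine hz y hy ((FI1_near G _ y z).1 (Inp.near_symm (Inp.near_trans hzx ?_)))
        exact Inp.near_adj (I := triv G) hxy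
    have hA : Agree (triv G) (triv G') ((triv G).nbd r₀ Ω) := by
      intro x hx y
      obtain ⟨h1, h2⟩ := hfar x hx
      exact ⟨⟨fun hxy => ⟨h1, h2 y hxy, hxy⟩, fun hxy => hxy.2.2⟩, Iff.rfl⟩
    obtain ⟨c, hc, hag⟩ := hr V (triv G) (triv G') c1 Ω (FI1_sz G) (FI1_inv G hG) hG' hA
    exact ⟨c, FI1_prop hc, fun x y hxy hfa => hag x (fun a ha => (hfa a ha).1) y hxy⟩

end RowFI1

end Pool.MP405d56
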