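import Pool.Agent.Lib.MP_405d56_lc.O.Defs

/-!
# MP_405d56_lc, outer process: basic lemmas on `near`, `nbd`, `Agree`
-/

open Set

namespace Pool.MP405d56

variable {V : Type}

namespace Inp
variable {I : Inp V} {n m : ℕ} {x y z : V}

theorem near_refl (I : Inp V) (n : ℕ) (x : V) : I.near n x x := ⟨.nil, Nat.zero_le _⟩

theorem near_symm (h : I.near n x y) : I.near n y x := by
  obtain ⟨p, hp⟩ := h
  exact ⟨p.reverse, by rwa [SimpleGraph.Walk.length_reverse]⟩

theorem near_trans (h : I.near n x y) (h' : I.near m y z) : I.near (n + m) x z := by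
  obtain ⟨p, hp⟩ := h
  obtain ⟨q, hq⟩ := h'
  exact ⟨p.append q, by rw [SimpleGraph.Walk.length_append]; omega⟩

theorem near_mono (hnm : n ≤ m) (h : I.near n x y) : I.near m x y := by
  obtain ⟨p, hp⟩ := h
  exact ⟨p, hp.trans hnm⟩

theorem near_zero : I.near 0 x y ↔ x = y := by
  constructor
  · rintro ⟨p, hp⟩
    exact SimpleGraph.Walk.eq_of_length_eq_zero (Nat.le_zero.1 hp)
  · rintro rfl
    exact near_refl I 0 x

theorem near_Q (h : I.Q.Adj x y) : I.near 1 x y := ⟨.cons h .nil, le_rfl⟩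

theorem near_succ : I.near (n + 1) x y ↔ I.near n x y ∨ ∃ z, I.near n x z ∧ I.Q.Adj z y := by
  constructor
  · rintro ⟨p, hp⟩
    by_cases h : p.length ≤ n
    · exact Or.inl ⟨p, h⟩
    · right
      have hl : p.reverse.length = n + 1 := by
        rw [SimpleGraph.Walk.length_reverse]; omega
      cases hq : p.reverse with
      | nil => rw [hq] at hl; simp at hl
      | cons hadj q =>
        rename_i z
        rw [hq] at hl
        refine ⟨z, near_symm ⟨q, ?_⟩, hadj.symm⟩
        simp only [SimpleGraph.Walk.length_cons] at hl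
        omega
  · rintro (h | ⟨z, h, hz⟩)
    · exact near_mono (Nat.le_succ n) h
    · exact near_trans h (near_Q hz)

theorem near_succ' : I.near (n + 1) x y ↔ x = y ∨ ∃ z, I.Q.Adj x z ∧ I.near n z y := by
  constructor
  · rintro ⟨p, hp⟩
    cases p with
    | nil => exact Or.inl rfl
    | cons hadj q =>
      rename_i z
      right
      refine ⟨z, hadj, q, ?_⟩
      simp only [SimpleGraph.Walk.length_cons] at hp
      omega
  · rintro (rfl | ⟨z, hz, h⟩)
    · exact near_refl I _ x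
    · have := near_trans (near_Q hz) h
      rwa [Nat.add_comm] at this

theorem near_adj (h : I.H.Adj x y) : I.near 1 x y := near_Q ⟨h.ne, Or.inl h⟩

theorem near_E (h : I.E x y) : I.near 1 x y := by
  by_cases hxy : x = y
  · rw [hxy]; exact near_refl I 1 y
  · exact near_Q ⟨hxy, Or.inr h⟩

theorem near_reach (h : I.near n x y) : I.Q.Reachable x y := ⟨h.choose⟩

theorem Q_adj_near {x y : V} (h : I.Q.Adj x y) : I.near 1 x y := near_Q h

/-- induction along `near` -/
theorem near_iff_mono {I I' : Inp V} {k : ℕ} (hQ : ∀ x y, I.Q.Adj x y → I'.near k x y) :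
    ∀ {n : ℕ} {x y : V}, I.near n x y → I'.near (k * n) x y := by
  intro n
  induction n with
  | zero =>
    intro x y h
    rw [near_zero] at h
    rw [h]
    exact near_refl I' _ y
  | succ n ih =>
    intro x y h
    rcases near_succ.1 h with h | ⟨z, h, hz⟩
    · exact near_mono (Nat.mul_le_mul_left k (Nat.le_succ n)) (ih h)
    · have := near_trans (ih h) (hQ _ _ hz)
      rwa [← Nat.mul_succ] at this

theorem nbd_mono (h : n ≤ m) {A B : Set V} (hAB : A ⊆ B) : I.nbd n A ⊆ I.nbd m B := by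
  rintro x ⟨a, ha, hx⟩
  exact ⟨a, hAB ha, near_mono h hx⟩

theorem subset_nbd (n : ℕ) (A : Set V) : A ⊆ I.nbd n A := fun x hx => ⟨x, hx, near_refl I n x⟩

theorem nbd_nbd (A : Set V) : I.nbd n (I.nbd m A) ⊆ I.nbd (m + n) A := by
  rintro x ⟨a, ⟨b, hb, hba⟩, hx⟩
  exact ⟨b, hb, near_trans hba hx⟩

theorem mem_nbd_of_near {A : Set V} (hx : x ∈ I.nbd n A) (h : I.near m x y) :
    y ∈ I.nbd (n + m) A := by
  obtain ⟨a, ha, h'⟩ := hx
  exact ⟨a, ha, near_trans h' h⟩

end Inp

theorem Agree.mono {I I' : Inp V} {A B : Set V} (h : Agree I I' B) (hAB : A ⊆ B) :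
    Agree I I' A := fun x hx => h x (hAB hx)

theorem Agree.symm {I I' : Inp V} {A : Set V} (h : Agree I I' A) : Agree I' I A :=
  fun x hx y => ⟨(h x hx y).1.symm, (h x hx y).2.symm⟩

theorem Agree.Q {I I' : Inp V} {A : Set V} (h : Agree I I' A) {x : V} (hx : x ∈ A) (y : V) :
    I.Q.Adj x y ↔ I'.Q.Adj x y := by
  show (x ≠ y ∧ _) ↔ (x ≠ y ∧ _)
  rw [(h x hx y).1, (h x hx y).2]

/-- near points are the same near the agreement region -/
theorem Agree.near_aux {I I' : Inp V} {x : V} {n : ℕ} (h : Agree I I' (I.nbd n {x})) :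
    ∀ m ≤ n + 1, ∀ y, I.near m x y ↔ I'.near m x y := by
  intro m
  induction m with
  | zero => intro _ y; rw [Inp.near_zero, Inp.near_zero]
  | succ m ih =>
    intro hm y
    rw [Inp.near_succ, Inp.near_succ, ih (by omega)]
    have key : ∀ z, I.near m x z → (I.Q.Adj z y ↔ I'.Q.Adj z y) := fun z hz =>
      h.Q ⟨x, rfl, Inp.near_mono (by omega) hz⟩ y
    constructor
    · rintro (h1 | ⟨z, h1, h2⟩)
      · exact Or.inl h1
      · exact Or.inr ⟨z, (ih (by omega) z).1 h1, (key z h1).1 h2⟩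
    · rintro (h1 | ⟨z, h1, h2⟩)
      · exact Or.inl h1
      · have h3 := (ih (by omega) z).2 h1
        exact Or.inr ⟨z, h3, (key z h3).2 h2⟩

theorem Agree.near {I I' : Inp V} {A : Set V} {n m : ℕ} (h : Agree I I' (I.nbd n A)) {x : V}
    (hx : x ∈ A) (hm : m ≤ n + 1) (y : V) : I.near m x y ↔ I'.near m x y :=
  Agree.near_aux (h.mono (Inp.nbd_mono le_rfl (Set.singleton_subset_iff.2 hx))) m hm y

theorem Agree.nbd {I I' : Inp V} {A : Set V} {n m : ℕ} (h : Agree I I' (I.nbd n A))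
    (hm : m ≤ n + 1) : I.nbd m A = I'.nbd m A := by
  ext y
  constructor
  · rintro ⟨a, ha, hy⟩
    exact ⟨a, ha, (h.near ha hm y).1 hy⟩
  · rintro ⟨a, ha, hy⟩
    exact ⟨a, ha, (h.near ha hm y).2 hy⟩

theorem Agree.dg {I I' : Inp V} {A : Set V} (h : Agree I I' A) {x : V} (hx : x ∈ A) :
    dg I.H x = dg I'.H x := by
  unfold Pool.MP405d56.dg
  congr 1
  ext y
  exact (h x hx y).1

theorem Agree.w {I I' : Inp V} {A : Set V} (h : Agree I I' (I.nbd 1 A)) {x : V} (hx : x ∈ A) :
    I.w x = I'.w x := by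
  unfold Inp.w cnt
  congr 1
  ext ⟨a, b⟩
  have h1 := (h x (Inp.subset_nbd 1 A hx) a).2
  constructor
  · rintro ⟨ha, hb⟩
    have h2 := (h a ⟨x, hx, Inp.near_E ha⟩ b).1
    exact ⟨h1.1 ha, h2.1 hb⟩
  · rintro ⟨ha, hb⟩
    have ha' := h1.2 ha
    have h2 := (h a ⟨x, hx, Inp.near_E ha'⟩ b).1
    exact ⟨ha', h2.2 hb⟩

theorem dg_le_w [Finite V] (I : Inp V) (x : V) : dg I.H x ≤ I.w x := by
  unfold dg Inp.w cnt
  apply Set.ncard_le_ncard_of_injOn (fun y => (x, y))
  · intro y hy
    exact ⟨I.eqv.refl x, hy⟩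
  · intro y _ y' _ h
    exact (Prod.mk.inj h).2

theorem w_congr (I : Inp V) {x y : V} (h : I.E x y) : I.w x = I.w y := by
  unfold Inp.w cnt
  congr 1
  ext ⟨a, b⟩
  constructor
  · rintro ⟨ha, hb⟩
    exact ⟨I.eqv.trans (I.eqv.symm h) ha, hb⟩
  · rintro ⟨ha, hb⟩
    exact ⟨I.eqv.trans h ha, hb⟩


/-- number of edges leaving a set -/
noncomputable def bdn (H : SimpleGraph V) (D : Set V) : ℕ :=
  {p : V × V | p.1 ∈ D ∧ p.2 ∉ D ∧ H.Adj p.1 p.2}.ncard

open Classical in
theorem cnt_eq_sum [Fintype V] (E : V → V → Prop) (H : SimpleGraph V) (x : V) :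
    cnt E H x = ∑ y ∈ Finset.univ.filter (fun y => E x y), dg H y := by
  have h1 : {p : V × V | E x p.1 ∧ H.Adj p.1 p.2} =
      (((Finset.univ.filter (fun y => E x y)).sigma
        (fun y => Finset.univ.filter (fun z => H.Adj y z))).map
          (Equiv.sigmaEquivProd V V).toEmbedding : Finset (V × V)) := by
    ext ⟨a, b⟩
    simp [Equiv.sigmaEquivProd]
  unfold cnt
  rw [h1, Set.ncard_coe_finset, Finset.card_map, Finset.card_sigma]
  refine Finset.sum_congr rfl fun y _ => ?_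
  unfold dg
  rw [← Set.ncard_coe_finset]
  congr 1
  ext z
  simp

open Classical in
/-- degrees in a set: inner darts plus leaving edges -/
theorem sum_dg [Fintype V] (H : SimpleGraph V) (D : Set V) :
    ∑ x ∈ Finset.univ.filter (fun x => x ∈ D), dg H x = e2 H D + bdn H D := by
  have h0 := cnt_eq_sum (fun _ y => y ∈ D) H
  by_cases hV : Nonempty V
  · obtain ⟨x⟩ := hV
    rw [← h0 x]
    unfold cnt e2 bdn
    rw [← Set.ncard_union_eq]
    · congr 1
      ext ⟨a, b⟩
      simp only [Set.mem_ofPred_eq, Set.mem_union]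
      tauto
    · rw [Set.disjoint_left]
      rintro ⟨a, b⟩ ⟨_, h1, _⟩ ⟨_, h2, _⟩
      exact h2 h1
  · have : IsEmpty V := not_nonempty_iff.1 hV
    have h1 : e2 H D = 0 := by
      unfold e2
      rw [Set.ncard_eq_zero (Set.toFinite _)]
      ext ⟨a, b⟩
      exact (this.false a).elim
    have h2 : bdn H D = 0 := by
      unfold bdn
      rw [Set.ncard_eq_zero (Set.toFinite _)]
      ext ⟨a, b⟩
      exact (this.false a).elim
    rw [h1, h2, Finset.univ_eq_empty]
    simp

theorem e2_even [Finite V] (H : SimpleGraph V) (D : Set V) : Even (e2 H D) := by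
  classical
  have := Fintype.ofFinite V
  have h1 : e2 H D = ∑ x, (H.induce D).degree x := by
    have h2 : {p : V × V | p.1 ∈ D ∧ p.2 ∈ D ∧ H.Adj p.1 p.2} =
        (((Finset.univ : Finset D).sigma (fun x => (H.induce D).neighborFinset x)).map
          ⟨fun q => ((q.1 : V), (q.2 : V)), by
            rintro ⟨⟨a, ha⟩, ⟨b, hb⟩⟩ ⟨⟨a', ha'⟩, ⟨b', hb'⟩⟩ h
            simp only [Prod.mk.injEq] at h
            obtain ⟨rfl, rfl⟩ := h
            rfl⟩ : Finset (V × V)) := by
      ext ⟨a, b⟩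
      simp only [Set.mem_ofPred_eq, Finset.coe_map, Set.mem_image,
        Finset.mem_coe, Finset.mem_sigma, Finset.mem_univ, SimpleGraph.mem_neighborFinset,
        SimpleGraph.comap_adj, Function.Embedding.subtype_apply, true_and,
        Sigma.exists, Subtype.exists]
      constructor
      · rintro ⟨h1, h2, h3⟩
        exact ⟨a, h1, b, h2, h3, rfl⟩
      · rintro ⟨a', h1, b', h2, h3, h4⟩
        obtain ⟨rfl, rfl⟩ := Prod.mk.inj h4
        exact ⟨h1, h2, h3⟩
    unfold e2
    rw [h2, Set.ncard_coe_finset, Finset.card_map, Finset.card_sigma]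
    rfl
  rw [h1, SimpleGraph.sum_degrees_eq_twice_card_edges]
  exact even_two_mul _

end Pool.MP405d56
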