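import Mathlib

/-!
# MP_405d56_lc, outer process: definitions

Everything in this part is about finite vertex types.  An *input* is a simple graph together with a
partition of the vertices into classes (an ordinary vertex is a singleton class).
-/

open Set

namespace Pool.MP405d56

variable {V : Type}

/-- degree -/
noncomputable def dg (H : SimpleGraph V) (x : V) : ℕ := {y | H.Adj x y}.ncard

/-- number of darts of `H` at the class of `x` (an edge inside the class counts twice) -/
noncomputable def cnt (E : V → V → Prop) (H : SimpleGraph V) (x : V) : ℕ :=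
  {p : V × V | E x p.1 ∧ H.Adj p.1 p.2}.ncard

/-- number of darts inside a set (twice the number of edges) -/
noncomputable def e2 (H : SimpleGraph V) (D : Set V) : ℕ :=
  {p : V × V | p.1 ∈ D ∧ p.2 ∈ D ∧ H.Adj p.1 p.2}.ncard

/-- input: a simple graph and an equivalence relation -/
structure Inp (V : Type) where
  H : SimpleGraph V
  E : V → V → Prop
  eqv : Equivalence E

namespace Inp

/-- number of darts at the class of `x` -/
noncomputable def w (I : Inp V) (x : V) : ℕ := cnt I.E I.H x

/-- one step: an edge, or two points of one class -/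
def Q (I : Inp V) : SimpleGraph V where
  Adj x y := x ≠ y ∧ (I.H.Adj x y ∨ I.E x y)
  symm := ⟨fun _ _ h => ⟨h.1.symm, h.2.imp (fun h => h.symm) (fun h => I.eqv.symm h)⟩⟩
  loopless := ⟨fun _ h => h.1 rfl⟩

/-- distance at most `n` -/
def near (I : Inp V) (n : ℕ) (x y : V) : Prop := ∃ p : I.Q.Walk x y, p.length ≤ n

/-- the `n`-neighbourhood of a set -/
def nbd (I : Inp V) (n : ℕ) (A : Set V) : Set V := {x | ∃ a ∈ A, I.near n a x}

/-- all classes have at most `N` points -/
def Sz (I : Inp V) (N : ℕ) : Prop := ∀ x, {y | I.E x y}.ncard ≤ N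

end Inp

/-- two inputs agree at the points of `A` -/
def Agree (I I' : Inp V) (A : Set V) : Prop :=
  ∀ x ∈ A, ∀ y, (I.H.Adj x y ↔ I'.H.Adj x y) ∧ (I.E x y ↔ I'.E x y)

/-! ### Lumps -/

/-- a small odd overfull set of obligatory vertices, at most one per class (`λ(D) = j|D| - 2e(D) ≤
j - 2`); it may contain one vertex of degree `j + 1` -/
structure IsLump (L j : ℕ) (I : Inp V) (D : Set V) : Prop where
  odd : Odd D.ncard
  conn : (I.H.induce D).Connected
  one : ∀ x ∈ D, ∀ y ∈ D, I.E x y → x = y
  must : ∀ x ∈ D, j ≤ I.w x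
  dense : j * D.ncard + 2 ≤ e2 I.H D + j
  small : ∀ x ∈ D, ∀ y ∈ D, I.near L x y

/-- some class meets both sets -/
def Conf (I : Inp V) (D D' : Set V) : Prop := ∃ x ∈ D, ∃ y ∈ D', I.E x y

/-- a maximal family of pairwise non-conflicting lumps -/
structure Fam (L j : ℕ) (I : Inp V) (F : Set (Set V)) : Prop where
  lump : ∀ D ∈ F, IsLump L j I D
  disj : ∀ D ∈ F, ∀ D' ∈ F, Conf I D D' → D = D'
  max : ∀ D, IsLump L j I D → ∃ D' ∈ F, Conf I D D'

/-- delete the edges inside the lumps and unite the classes which meet a lump -/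
def Inp.plus (I : Inp V) (F : Set (Set V)) : Inp V where
  H :=
    { Adj := fun x y => I.H.Adj x y ∧ ∀ D ∈ F, ¬ (x ∈ D ∧ y ∈ D)
      symm := ⟨fun _ _ h => ⟨h.1.symm, fun D hD hh => h.2 D hD ⟨hh.2, hh.1⟩⟩⟩
      loopless := ⟨fun _ h => h.1.ne rfl⟩ }
  E := Relation.EqvGen (fun x y => I.E x y ∨ ∃ D ∈ F, x ∈ D ∧ y ∈ D)
  eqv := Relation.EqvGen.is_equivalence _

/-- remove the matching `M` -/
def Inp.sub (J : Inp V) (M : SimpleGraph V) : Inp V where
  H := J.H \ M
  E := J.E
  eqv := J.eqv

/-- `M` is a matching in `J.H` which uses at most two darts of every class -/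
structure IsMat (J : Inp V) (M : SimpleGraph V) : Prop where
  sub : M ≤ J.H
  mat : ∀ x y z, M.Adj x y → M.Adj x z → y = z
  two : ∀ x, cnt J.E M x ≤ 2

/-- level invariant: at most `j + 1` darts at a class, and the special classes (with `j + 1` darts)
are far apart -/
structure Inv (R j : ℕ) (I : Inp V) : Prop where
  le : ∀ x, I.w x ≤ j + 1
  far : ∀ x y, I.w x = j + 1 → I.w y = j + 1 → I.near R x y → I.E x y

/-- valid data of level `j`: the new special classes (`j` darts left) and the old ones are far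
apart -/
structure Valid (R L j : ℕ) (I : Inp V) (F : Set (Set V)) (M : SimpleGraph V) : Prop where
  fam : Fam L j I F
  mat : IsMat (I.plus F) M
  le : ∀ x, ((I.plus F).sub M).w x ≤ j
  far : ∀ x y, (((I.plus F).sub M).w x = j ∨ (I.plus F).w x = j + 1) →
    (((I.plus F).sub M).w y = j ∨ (I.plus F).w y = j + 1) → (I.plus F).near R x y →
      (I.plus F).E x y

/-- colouring of the edges of an input with the colours `0, …, j`, proper, every colour on at most
two darts of each class -/
structure Col (j : ℕ) (I : Inp V) (c : V → V → ℕ) : Prop where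
  symm : ∀ x y, I.H.Adj x y → c x y = c y x
  le : ∀ x y, I.H.Adj x y → c x y ≤ j
  proper : ∀ x y z, I.H.Adj x y → I.H.Adj x z → y ≠ z → c x y ≠ c x z
  light : ∀ x a, {p : V × V | I.E x p.1 ∧ I.H.Adj p.1 p.2 ∧ c p.1 p.2 = a}.ncard ≤ 2

/-- structured colourings (`R j` = separation of the special classes at level `j`, `L j` = size of
the lumps of level `j`) -/
def SolP (R L : ℕ → ℕ) : ℕ → Inp V → (V → V → ℕ) → Prop
  | 0, _, _ => False
  | 1, I, c => Inv (R 1) 1 I ∧ Col 1 I c
  | (j + 2), I, c => Inv (R (j + 2)) (j + 2) I ∧ Col (j + 2) I c ∧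
      ∃ (F : Set (Set V)) (M : SimpleGraph V) (c' : V → V → ℕ),
        Valid (R (j + 1)) (L (j + 2)) (j + 2) I F M ∧ SolP R L (j + 1) ((I.plus F).sub M) c' ∧
        (∀ x y, ((I.plus F).sub M).H.Adj x y → c x y = c' x y) ∧
        ∀ x y, M.Adj x y → c x y = j + 2

end Pool.MP405d56
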