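import Pool.Agent.Lib.MP_405d56_lc.O.Basic
import Pool.Agent.Lib.MP_405d56_lc.TutteReq

/-!
# MP_405d56_lc, outer process: the gadget graph of an input

Vertices: `inl x` = the vertex `x`; `inr y` = an absorber of the class of `y` (for `y` of positive
degree, different from the two base points of the class as explained below).
* obligatory class (`j ≤ w`): `r - 1` absorbers `inr y`, `y ∈ pos \ {b1}`; the absorber `inr b2` is
  optional, the others are required; the `inl x`, `x ∈ pos` are required;
* other classes: `r - 2` absorbers `inr y`, `y ∈ pos \ {b1, b2}`, all required; the `inl x` are optional.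
Every absorber is joined to all `inl x`, `x ∈ pos`.
-/

open Set

namespace Pool.MP405d56

variable {V : Type}

/-- a canonical element of a set -/
noncomputable def pick (x : V) (S : Set V) : V := by
  classical exact if h : S.Nonempty then h.some else x

theorem pick_mem {x : V} {S : Set V} (h : S.Nonempty) : pick x S ∈ S := by
  unfold pick
  rw [dif_pos h]
  exact h.some_mem

theorem pick_congr {x y : V} {S : Set V} (h : S.Nonempty) : pick x S = pick y S := by
  unfold pick
  rw [dif_pos h, dif_pos h]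

namespace Inp

/-- vertices of positive degree in the class of `x` -/
def pos (J : Inp V) (x : V) : Set V := {y | J.E x y ∧ ∃ z, J.H.Adj y z}
/-- first base point of the class -/
noncomputable def b1 (J : Inp V) (x : V) : V := pick x (J.pos x)
/-- second base point of the class -/
noncomputable def b2 (J : Inp V) (x : V) : V := pick x (J.pos x \ {J.b1 x})
/-- a vertex of maximal degree of the class -/
noncomputable def v0 (J : Inp V) (x : V) : V :=
  pick x {y | y ∈ J.pos x ∧ ∀ z ∈ J.pos x, dg J.H z ≤ dg J.H y}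

/-- `inr y` is an absorber of the class of `x` and `x` has positive degree -/
def abs (J : Inp V) (j : ℕ) (x y : V) : Prop :=
  x ∈ J.pos x ∧ y ∈ J.pos x ∧ y ≠ J.b1 x ∧ (J.w x < j → y ≠ J.b2 x)

/-- the gadget graph -/
def gad (J : Inp V) (j : ℕ) : SimpleGraph (V ⊕ V) where
  Adj a b := match a, b with
    | Sum.inl x, Sum.inl y => J.H.Adj x y
    | Sum.inl x, Sum.inr y => J.abs j x y
    | Sum.inr y, Sum.inl x => J.abs j x y
    | Sum.inr _, Sum.inr _ => False
  symm := ⟨fun a b h => by
    match a, b with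
    | Sum.inl x, Sum.inl y => exact J.H.adj_symm h
    | Sum.inl x, Sum.inr y => exact h
    | Sum.inr y, Sum.inl x => exact h
    | Sum.inr _, Sum.inr _ => exact h⟩
  loopless := ⟨fun a h => by
    match a with
    | Sum.inl x => exact J.H.loopless.irrefl x h
    | Sum.inr _ => exact h⟩

/-- the required vertices -/
def req (J : Inp V) (j : ℕ) : Set (V ⊕ V) := fun a => match a with
  | Sum.inl x => x ∈ J.pos x ∧ j ≤ J.w x
  | Sum.inr y => y ∈ J.pos y ∧ y ≠ J.b1 y ∧ y ≠ J.b2 y

/-- the degree, reduced by one at the vertex `v0` of a special class -/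
noncomputable def dgp (J : Inp V) (j : ℕ) (x : V) : ℕ := by
  classical exact if J.w x = j + 1 ∧ x = J.v0 x then dg J.H x - 1 else dg J.H x

/-- `1 - deg' / j` -/
noncomputable def yv (J : Inp V) (j : ℕ) (x : V) : ℝ := 1 - (J.dgp j x : ℝ) / j

/-- weight of the gadget edges at `x` -/
noncomputable def gw (J : Inp V) (j : ℕ) (x : V) : ℝ := by
  classical exact J.yv j x / (if j ≤ J.w x then ((J.pos x).ncard : ℝ) - 1
    else ((J.pos x).ncard : ℝ) - (J.w x : ℝ) / j)

/-- the weights -/
noncomputable def xw (J : Inp V) (j : ℕ) (a b : V ⊕ V) : ℝ := by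
  classical exact match a, b with
    | Sum.inl x, Sum.inl y => if J.H.Adj x y then 1 / (j : ℝ) else 0
    | Sum.inl x, Sum.inr y => if J.abs j x y then J.gw j x else 0
    | Sum.inr y, Sum.inl x => if J.abs j x y then J.gw j x else 0
    | Sum.inr _, Sum.inr _ => 0

/-- the excess: `1/j` at the vertex `v0` of a special class -/
noncomputable def exc (J : Inp V) (j : ℕ) (a : V ⊕ V) : ℝ := by
  classical exact match a with
    | Sum.inl x => if J.w x = j + 1 ∧ x = J.v0 x then 1 / (j : ℝ) else 0
    | Sum.inr _ => 0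

end Inp

/-- projection of the gadget graph to the vertices -/
def prj : V ⊕ V → V := Sum.elim id id

/-! ### The matching of the real graph given by a matching of the gadget graph -/

/-- an involution gives a matching -/
def rl (μ : V ⊕ V → V ⊕ V) : SimpleGraph V where
  Adj x y := x ≠ y ∧ μ (Sum.inl x) = Sum.inl y ∧ μ (Sum.inl y) = Sum.inl x
  symm := ⟨fun _ _ h => ⟨h.1.symm, h.2.2, h.2.1⟩⟩
  loopless := ⟨fun _ h => h.1 rfl⟩

/-- matchings of a graph, as involutions -/
structure IsInv {W : Type} (Γ : SimpleGraph W) (μ : W → W) : Prop where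
  inv : ∀ a, μ (μ a) = a
  adj : ∀ a, μ a ≠ a → Γ.Adj a (μ a)

/-! ### Nets -/

/-- A net: a matching `N` of far apart edges, far away from `Fb`, such that every edge is close to
`N` or to `Fb`. -/
structure IsNet (J : Inp V) (t : ℕ) (Fb : Set V) (N : SimpleGraph V) : Prop where
  sub : N ≤ J.H
  sep : ∀ x x' y y', N.Adj x x' → N.Adj y y' → J.near (t + 2) x y → y = x ∨ y = x'
  off : ∀ x x', N.Adj x x' → ∀ f ∈ Fb, ¬ J.near (t + 2) x f
  dense : ∀ x y, J.H.Adj x y → (∃ n n', N.Adj n n' ∧ J.near (t + 3) x n) ∨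
    ∃ f ∈ Fb, J.near (t + 3) x f

/-- the required vertices which do not belong to the net -/
def reqN (J : Inp V) (j : ℕ) (N : SimpleGraph V) : Set (V ⊕ V) :=
  fun a => a ∈ J.req j ∧ ∀ n n', N.Adj n n' → a ≠ Sum.inl n

/-- density radius of the net -/
def rho (t : ℕ) : ℕ := 4 * (t + 3) + 10
/-- bound for the size of the lumps -/
def L0 (j t : ℕ) : ℕ := (j + 4) * (2 * rho t + 4)
/-- separation of the points of `Fb` -/
def T0 (j t : ℕ) : ℕ := 4 * ((j + 2) * (2 * rho t + 10)) + 2 * rho t + 20
/-- separation of the old special classes -/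
def T1 (j t L : ℕ) : ℕ := (L + 2) * (T0 j t + 1) + 2 * L + 4 * rho t + 20

/-- the standing hypotheses of the Tutte part -/
structure Hyp (j t L : ℕ) (I : Inp V) (F : Set (Set V)) (Fb : Set V) : Prop where
  hj : 2 ≤ j
  hL : L0 j t ≤ L
  fam : Fam L j I F
  le : ∀ x, I.w x ≤ j + 1
  /-- the old special classes are far apart -/
  far : ∀ x y, I.w x = j + 1 → I.w y = j + 1 → I.near (T1 j t L) x y → I.E x y
  /-- `Fb` contains the special classes, is a union of classes and sparse -/
  spec : ∀ x, (I.plus F).w x = j + 1 → x ∈ Fb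
  cls : ∀ x y, (I.plus F).E x y → x ∈ Fb → y ∈ Fb
  sparse : ∀ x ∈ Fb, ∀ y ∈ Fb, (I.plus F).near (T0 j t) x y → (I.plus F).E x y

/-- total slack of `s ∈ S` with respect to a family of parts `𝒟` -/
noncomputable def slk [Fintype V] [DecidableEq V] (J : Inp V) (j : ℕ) (S : Finset (V ⊕ V))
    (𝒟 : Finset (Finset (V ⊕ V))) (s : V ⊕ V) : ℝ :=
  (1 + J.exc j s - ∑ b, J.xw j s b) + ∑ w ∈ (S ∪ 𝒟.biUnion id)ᶜ, J.xw j s w +
    ∑ t ∈ S, J.xw j s t

end Pool.MP405d56
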