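import Pool.Agent.Lib.MP_405d56_lc.O.WSkel
import Pool.Agent.Lib.MP_405d56_lc.EFinal

/-!
# MP_405d56_lc, outer process: re-insertion of the lumps (rows RI1 ... RI5)

`I` input of level `k + 1`, `F` family of lumps, `M` matching of `I.plus F`, `c'` a colouring of `(I.plus F).sub M` with the colours
`0, ..., k`.
-/

open Set

namespace Pool.MP405d56

section Defs
variable {V : Type}

/-- add the matching `M` with colour `a` -/
noncomputable def addM (M : SimpleGraph V) (a : ℕ) (c' : V → V → ℕ) (x y : V) : ℕ := by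
  classical exact if M.Adj x y then a else c' x y

/-- the colours which must be avoided at `v ∈ D`: those of the `plus`-edges at `v`, and those which occur twice on the other darts of the class -/
def forb (I : Inp V) (F : Set (Set V)) (c : V → V → ℕ) (v : V) : Set ℕ :=
  {a | (∃ y, (I.plus F).H.Adj v y ∧ c v y = a) ∨
    2 ≤ {p : V × V | I.E v p.1 ∧ p.1 ≠ v ∧ (I.plus F).H.Adj p.1 p.2 ∧ c p.1 p.2 = a}.ncard}

/-- `c0` is an admissible colouring of the edges inside the lump `D`, when the `plus`-edges are coloured by `c1` -/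
structure OKon (I : Inp V) (F : Set (Set V)) (j : ℕ) (c1 : V → V → ℕ) (D : Set V)
    (c0 : V → V → ℕ) : Prop where
  symm : ∀ x ∈ D, ∀ y ∈ D, I.H.Adj x y → c0 x y = c0 y x
  le : ∀ x ∈ D, ∀ y ∈ D, I.H.Adj x y → c0 x y ≤ j
  proper : ∀ x ∈ D, ∀ y ∈ D, ∀ z ∈ D, I.H.Adj x y → I.H.Adj x z → y ≠ z → c0 x y ≠ c0 x z
  avoid : ∀ x ∈ D, ∀ y ∈ D, I.H.Adj x y → c0 x y ∉ forb I F c1 x

end Defs

/-! ### row RI1 -/

section RowRI1
variable {V : Type}

variable {I : Inp V} {L k : ℕ} {F : Set (Set V)} {M : SimpleGraph V} {c' c1 c0 : V → V → ℕ}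

theorem col_addM [Finite V] (hM : IsMat (I.plus F) M) (hc : Col k ((I.plus F).sub M) c') :
    Col (k + 1) (I.plus F) (addM M (k + 1) c') := by
  classical
  have hsub : ∀ x y, (I.plus F).H.Adj x y → ¬ M.Adj x y → ((I.plus F).sub M).H.Adj x y :=
    fun x y h hn => (SimpleGraph.sdiff_adj _ _ _ _).mpr ⟨h, hn⟩
  have e1 : ∀ x y, M.Adj x y → addM M (k + 1) c' x y = k + 1 := by
    intro x y h; unfold addM; rw [if_pos h]
  have e2 : ∀ x y, ¬ M.Adj x y → addM M (k + 1) c' x y = c' x y := by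
    intro x y h; unfold addM; rw [if_neg h]
  constructor
  · intro x y h
    by_cases hm : M.Adj x y
    · rw [e1 x y hm, e1 y x hm.symm]
    · rw [e2 x y hm, e2 y x (fun h' => hm h'.symm)]
      exact hc.symm x y (hsub x y h hm)
  · intro x y h
    by_cases hm : M.Adj x y
    · rw [e1 x y hm]
    · rw [e2 x y hm]
      exact (hc.le x y (hsub x y h hm)).trans (Nat.le_succ k)
  · intro x y z hy hz hyz
    by_cases hm : M.Adj x y <;> by_cases hm' : M.Adj x z
    · exact absurd (hM.mat x y z hm hm') hyz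
    · rw [e1 x y hm, e2 x z hm']
      have := hc.le x z (hsub x z hz hm')
      omega
    · rw [e2 x y hm, e1 x z hm']
      have := hc.le x y (hsub x y hy hm)
      omega
    · rw [e2 x y hm, e2 x z hm']
      exact hc.proper x y z (hsub x y hy hm) (hsub x z hz hm') hyz
  · intro x a
    by_cases ha : a = k + 1
    · subst ha
      refine le_trans (Set.ncard_le_ncard ?_ (Set.toFinite _)) (hM.two x)
      rintro ⟨u, v⟩ ⟨h1, h2, h3⟩
      refine ⟨h1, ?_⟩
      by_contra hm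
      have h4 := hc.le u v (hsub u v h2 hm)
      simp only [e2 u v hm] at h3
      omega
    · refine le_trans (Set.ncard_le_ncard ?_ (Set.toFinite _)) (hc.light x a)
      rintro ⟨u, v⟩ ⟨h1, h2, h3⟩
      have hm : ¬ M.Adj u v := by
        intro hm
        simp only [e1 u v hm] at h3
        exact ha h3.symm
      refine ⟨h1, hsub u v h2 hm, ?_⟩
      simp only [e2 u v hm] at h3
      exact h3

end RowRI1

/-! ### row RI2 -/

section RowRI2
section RI

variable {V : Type}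
variable {I : Inp V} {L k : ℕ} {F : Set (Set V)} {M : SimpleGraph V} {c' c1 c0 : V → V → ℕ}

/-- RI2. The darts at a vertex `v` of a lump. -/
theorem lump_darts [Finite V] (hF : Fam L (k + 1) I F) {D : Set V} (hD : D ∈ F) {v : V} (hv : v ∈ D) :
    {y | y ∈ D ∧ I.H.Adj v y}.ncard + dg (I.plus F).H v = dg I.H v ∧
    {p : V × V | I.E v p.1 ∧ p.1 ≠ v ∧ (I.plus F).H.Adj p.1 p.2}.ncard + dg I.H v = I.w v := by
  constructor
  · unfold dg
    rw [← Set.ncard_union_eq]
    · congr 1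
      ext y
      simp only [Set.mem_union, Set.mem_ofPred_eq]
      constructor
      · rintro (⟨_, h⟩ | h)
        · exact h
        · exact h.1
      · intro h
        by_cases hy : y ∈ D
        · exact Or.inl ⟨hy, h⟩
        · refine Or.inr ⟨h, ?_⟩
          rintro D' hD' ⟨h1, h2⟩
          have h3 : D = D' := hF.disj D hD D' hD' ⟨v, hv, v, h1, I.eqv.refl v⟩
          exact hy (h3 ▸ h2)
    · rw [Set.disjoint_left]
      rintro y ⟨h1, _⟩ h2
      exact h2.2 D hD ⟨hv, h1⟩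
  · have h0 : dg I.H v = {p : V × V | p.1 = v ∧ I.H.Adj p.1 p.2}.ncard := by
      unfold dg
      have h1 : {p : V × V | p.1 = v ∧ I.H.Adj p.1 p.2} = (fun y => (v, y)) '' {y | I.H.Adj v y} := by
        ext ⟨a, b⟩
        simp only [Set.mem_ofPred_eq, Set.mem_image, Prod.mk.injEq]
        constructor
        · rintro ⟨rfl, h⟩
          exact ⟨b, h, rfl, rfl⟩
        · rintro ⟨y, h, rfl, rfl⟩
          exact ⟨rfl, h⟩
      rw [h1, Set.ncard_image_of_injective]
      intro a b h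
      exact (Prod.mk.inj h).2
    rw [h0]
    unfold Inp.w cnt
    rw [← Set.ncard_union_eq]
    · congr 1
      ext ⟨a, b⟩
      simp only [Set.mem_union, Set.mem_ofPred_eq]
      constructor
      · rintro (⟨h1, _, h3⟩ | ⟨rfl, h⟩)
        · exact ⟨h1, h3.1⟩
        · exact ⟨I.eqv.refl _, h⟩
      · rintro ⟨h1, h2⟩
        by_cases ha : a = v
        · exact Or.inr ⟨ha, h2⟩
        · refine Or.inl ⟨h1, ha, h2, ?_⟩
          rintro D' hD' ⟨h3, h4⟩
          have h5 : D = D' := hF.disj D hD D' hD' ⟨v, hv, a, h3, h1⟩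
          subst h5
          exact ha ((hF.lump D hD).one v hv a h3 h1).symm
    · rw [Set.disjoint_left]
      rintro ⟨a, b⟩ ⟨_, h1, _⟩ ⟨h2, _⟩
      exact h1 h2

/-- RI2 (second part). number of forbidden colours at `v`. -/
theorem forb_card [Finite V] (v : V) :
    (forb I F c1 v).Finite ∧ (forb I F c1 v).ncard ≤ dg (I.plus F).H v +
      {p : V × V | I.E v p.1 ∧ p.1 ≠ v ∧ (I.plus F).H.Adj p.1 p.2}.ncard / 2 := by
  classical
  set S : Set (V × V) := {p : V × V | I.E v p.1 ∧ p.1 ≠ v ∧ (I.plus F).H.Adj p.1 p.2} with hS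
  set A : Set ℕ := (fun y => c1 v y) '' {y | (I.plus F).H.Adj v y} with hA
  set B : Set ℕ := {a | 2 ≤ {p : V × V | I.E v p.1 ∧ p.1 ≠ v ∧ (I.plus F).H.Adj p.1 p.2 ∧
    c1 p.1 p.2 = a}.ncard} with hB
  have hfib : ∀ a : ℕ, {p : V × V | I.E v p.1 ∧ p.1 ≠ v ∧ (I.plus F).H.Adj p.1 p.2 ∧
      c1 p.1 p.2 = a} = {p | p ∈ S ∧ c1 p.1 p.2 = a} := by
    intro a
    ext p
    simp only [hS, Set.mem_ofPred_eq, and_assoc]
  have hSf : S.Finite := Set.toFinite S
  have hBsub : B ⊆ (fun p : V × V => c1 p.1 p.2) '' S := by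
    intro a ha
    have h1 : 2 ≤ {p | p ∈ S ∧ c1 p.1 p.2 = a}.ncard := by rw [← hfib a]; exact ha
    obtain ⟨p, hp⟩ := Set.nonempty_of_ncard_ne_zero (s := {p | p ∈ S ∧ c1 p.1 p.2 = a}) (by omega)
    exact ⟨p, hp.1, hp.2⟩
  have hBf : B.Finite := (hSf.image _).subset hBsub
  have hAf : A.Finite := (Set.toFinite _).image _
  have hAB : forb I F c1 v = A ∪ B := by
    ext a
    simp only [forb, hA, hB, Set.mem_union, Set.mem_ofPred_eq, Set.mem_image]
  have hAcard : A.ncard ≤ dg (I.plus F).H v := Set.ncard_image_le (Set.toFinite _)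
  have hBcard : B.ncard ≤ S.ncard / 2 := by
    rw [Nat.le_div_iff_mul_le (by norm_num)]
    have h1 : hSf.toFinset.card = ∑ b ∈ (hSf.toFinset.image (fun p : V × V => c1 p.1 p.2)),
        (hSf.toFinset.filter (fun p => c1 p.1 p.2 = b)).card :=
      Finset.card_eq_sum_card_fiberwise (fun p hp => Finset.mem_coe.2 (Finset.mem_image_of_mem _ hp))
    rw [Set.ncard_eq_toFinset_card S hSf, Set.ncard_eq_toFinset_card B hBf, h1]
    have h2 : hBf.toFinset ⊆ hSf.toFinset.image (fun p : V × V => c1 p.1 p.2) := by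
      intro a ha
      rw [Set.Finite.mem_toFinset] at ha
      obtain ⟨p, hp, rfl⟩ := hBsub ha
      exact Finset.mem_image_of_mem _ ((Set.Finite.mem_toFinset hSf).2 hp)
    calc hBf.toFinset.card * 2 = ∑ b ∈ hBf.toFinset, 2 := by
          rw [Finset.sum_const, smul_eq_mul]
      _ ≤ ∑ b ∈ hBf.toFinset, (hSf.toFinset.filter (fun p => c1 p.1 p.2 = b)).card := by
          apply Finset.sum_le_sum
          intro a ha
          rw [Set.Finite.mem_toFinset] at ha
          have h3 : 2 ≤ {p | p ∈ S ∧ c1 p.1 p.2 = a}.ncard := by rw [← hfib a]; exact ha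
          refine h3.trans (le_of_eq ?_)
          rw [← Set.ncard_coe_finset]
          congr 1
          ext p
          simp
      _ ≤ _ := Finset.sum_le_sum_of_subset h2
  rw [hAB]
  exact ⟨hAf.union hBf, (Set.ncard_union_le A B).trans (Nat.add_le_add hAcard hBcard)⟩

end RI

end RowRI2

/-! ### row RI3 -/

section RowRI3
variable {V : Type}

section RI

variable {I : Inp V} {L k : ℕ} {F : Set (Set V)} {M : SimpleGraph V} {c' c1 c0 : V → V → ℕ}

/-- RI3. every colour is forbidden at at most two vertices of `D`. -/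
theorem forb_light [Finite V] (hF : Fam L (k + 1) I F) (hc : Col (k + 1) (I.plus F) c1) {D : Set V}
    (hD : D ∈ F) (a : ℕ) : {v | v ∈ D ∧ a ∈ forb I F c1 v}.ncard ≤ 2 := by
  classical
  rcases Set.eq_empty_or_nonempty {v | v ∈ D ∧ a ∈ forb I F c1 v} with h0 | ⟨v0, hv0, _⟩
  · rw [h0, Set.ncard_empty]; omega
  have key : ∀ v, v ∈ {v | v ∈ D ∧ a ∈ forb I F c1 v} →
      ∃ p : V × V, I.E v p.1 ∧ (I.plus F).H.Adj p.1 p.2 ∧ c1 p.1 p.2 = a := by
    rintro v ⟨-, hv⟩
    rcases hv with ⟨y, hy, hya⟩ | h2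
    · exact ⟨(v, y), I.eqv.refl v, hy, hya⟩
    · have hne : {p : V × V | I.E v p.1 ∧ p.1 ≠ v ∧ (I.plus F).H.Adj p.1 p.2 ∧
          c1 p.1 p.2 = a}.Nonempty := by
        rw [Set.nonempty_iff_ne_empty]
        intro h
        rw [h, Set.ncard_empty] at h2
        omega
      obtain ⟨p, hp1, -, hp2, hp3⟩ := hne
      exact ⟨p, hp1, hp2, hp3⟩
  choose! f hf using key
  refine le_trans ?_ (hc.light v0 a)
  apply Set.ncard_le_ncard_of_injOn f
  · intro v hv
    obtain ⟨h1, h2, h3⟩ := hf v hv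
    refine ⟨?_, h2, h3⟩
    refine Relation.EqvGen.trans _ v _ (Relation.EqvGen.rel _ _ (Or.inr ⟨D, hD, hv0, hv.1⟩))
      (Relation.EqvGen.rel _ _ (Or.inl h1))
  · intro v hv v' hv' hvv
    have h1 := (hf v hv).1
    have h2 := (hf v' hv').1
    rw [hvv] at h1
    exact (hF.lump D hD).one v hv.1 v' hv'.1 (I.eqv.trans h1 (I.eqv.symm h2))

end RI

end RowRI3

/-! ### row RI4 -/

section RowRI4
variable {V : Type}

section RI

variable {I : Inp V} {L k : ℕ} {F : Set (Set V)} {M : SimpleGraph V} {c' c1 c0 : V → V → ℕ}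

open Classical in
/-- darts inside a set -/
theorem RI4_e2 [Fintype V] (H : SimpleGraph V) (D : Set V) :
    ∑ x ∈ Finset.univ.filter (fun x => x ∈ D), {y | y ∈ D ∧ H.Adj x y}.ncard = e2 H D := by
  let H' : SimpleGraph V :=
    { Adj := fun x y => (x ∈ D ∧ y ∈ D) ∧ H.Adj x y
      symm := ⟨fun _ _ h => ⟨⟨h.1.2, h.1.1⟩, h.2.symm⟩⟩
      loopless := ⟨fun x h => H.loopless.irrefl x h.2⟩ }
  have h0 := sum_dg H' D
  have h1 : bdn H' D = 0 := by
    unfold bdn
    rw [Set.ncard_eq_zero (Set.toFinite _)]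
    ext ⟨a, b⟩
    simp only [Set.mem_ofPred_eq, Set.mem_empty_iff_false, iff_false]
    rintro ⟨_, h2, h3⟩
    exact h2 h3.1.2
  have h2 : e2 H' D = e2 H D := by
    unfold e2
    congr 1
    ext ⟨a, b⟩
    constructor
    · rintro ⟨ha, hb, h⟩
      exact ⟨ha, hb, h.2⟩
    · rintro ⟨ha, hb, h⟩
      exact ⟨ha, hb, ⟨ha, hb⟩, h⟩
  rw [h1, h2, Nat.add_zero] at h0
  rw [← h0]
  refine Finset.sum_congr rfl fun x hx => ?_
  have hxD : x ∈ D := (Finset.mem_filter.1 hx).2
  unfold dg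
  congr 1
  ext y
  constructor
  · rintro ⟨hy, h⟩
    exact ⟨⟨hxD, hy⟩, h⟩
  · rintro ⟨⟨_, hy⟩, h⟩
    exact ⟨hy, h⟩

/-- RI4. RE-INSERTION INTO ONE LUMP. -/
theorem lump_ext [Finite V] (hF : Fam L (k + 1) I F) (hle : ∀ x, I.w x ≤ k + 2)
    (hfar : ∀ x y, I.w x = k + 2 → I.w y = k + 2 → I.near L x y → I.E x y)
    (hc : Col (k + 1) (I.plus F) c1) {D : Set V} (hD : D ∈ F) :
    ∃ c0, OKon I F (k + 1) c1 D c0 := by
  classical
  have : Fintype V := Fintype.ofFinite V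
  have hL : IsLump L (k + 1) I D := hF.lump D hD
  obtain ⟨degD, hdegD⟩ : ∃ degD : V → ℕ, degD = fun v => {y | y ∈ D ∧ I.H.Adj v y}.ncard :=
    ⟨_, rfl⟩
  obtain ⟨B, hB⟩ : ∃ B : D → Finset (Fin (k + 1 + 1)),
      B = fun v : D => Finset.univ.filter fun a : Fin (k + 1 + 1) => (a : ℕ) ∈ forb I F c1 (v : V) :=
    ⟨_, rfl⟩
  have hBmem : ∀ (v : D) (a : Fin (k + 1 + 1)), a ∈ B v ↔ (a : ℕ) ∈ forb I F c1 v := by
    intro v a
    rw [hB]
    simp
  -- the main count
  have hkey : ∀ v : D, degD v + (B v).card ≤ I.w v := by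
    intro v
    obtain ⟨h1, h2⟩ := lump_darts hF hD v.2
    obtain ⟨h3, h4⟩ := forb_card (I := I) (F := F) (c1 := c1) (v : V)
    have h5 : (B v).card ≤ (forb I F c1 v).ncard := by
      rw [← Set.ncard_coe_finset]
      refine Set.ncard_le_ncard_of_injOn (fun a : Fin (k + 1 + 1) => (a : ℕ)) ?_ ?_ h3
      · intro a ha
        exact (hBmem v a).1 ha
      · intro a _ b _ h
        exact Fin.ext h
    rw [hdegD]
    dsimp only
    omega
  have hone : ∀ u v : D, I.w u = k + 2 → I.w v = k + 2 → u = v := by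
    intro u v hu hv
    exact Subtype.ext (hL.one _ u.2 _ v.2 (hfar _ _ hu hv (hL.small _ u.2 _ v.2)))
  have hne : D.Nonempty := by
    rw [Set.nonempty_iff_ne_empty]
    rintro rfl
    have := hL.odd
    simp at this
  obtain ⟨p, hp⟩ : ∃ p : D, ∀ v : D, v ≠ p → I.w v ≤ k + 1 := by
    by_cases h : ∃ p : D, I.w p = k + 2
    · obtain ⟨p, hp⟩ := h
      refine ⟨p, fun v hv => ?_⟩
      by_contra hcon
      have h1 := hle v
      exact hv (hone v p (by omega) hp)
    · push Not at h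
      obtain ⟨x, hx⟩ := hne
      refine ⟨⟨x, hx⟩, fun v _ => ?_⟩
      have h1 := hle v
      have h2 := h v
      omega
  obtain ⟨Q, hQ⟩ : ∃ Q : SimpleGraph D, Q = I.H.induce D := ⟨_, rfl⟩
  have hdeg : ∀ v : D, (Q.neighborFinset v).card = degD v := by
    intro v
    rw [hdegD]
    dsimp only
    rw [← Set.ncard_coe_finset]
    refine Set.ncard_congr (fun (a : D) _ => (a : V)) ?_ ?_ ?_
    · intro a ha
      rw [SimpleGraph.coe_neighborFinset, SimpleGraph.mem_neighborSet, hQ] at ha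
      exact ⟨a.2, ha⟩
    · intro a b _ _ h
      exact Subtype.ext h
    · intro b hb
      refine ⟨⟨b, hb.1⟩, ?_, rfl⟩
      rw [SimpleGraph.coe_neighborFinset, SimpleGraph.mem_neighborSet, hQ]
      exact hb.2
  have hsumD : ∀ f : V → ℕ, ∑ v : D, f v = ∑ v ∈ Finset.univ.filter (fun x => x ∈ D), f v := by
    intro f
    rw [← Finset.sum_subtype_eq_sum_filter]
    have : (Finset.univ : Finset V).subtype (fun x => x ∈ D) = Finset.univ := by
      ext x
      simp
    rw [this]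
  have hcardD : Fintype.card D = D.ncard := by
    rw [← Nat.card_coe_set_eq, Nat.card_eq_fintype_card]
  -- the sum of the weights
  have hsumw : ∑ v : D, I.w v ≤ (k + 1) * D.ncard + 1 := by
    rw [← Finset.add_sum_erase _ _ (Finset.mem_univ p)]
    have h1 : ∑ v ∈ Finset.univ.erase p, I.w v ≤ ∑ v ∈ (Finset.univ : Finset D).erase p, (k + 1) :=
      Finset.sum_le_sum fun v hv => hp v (Finset.ne_of_mem_erase hv)
    rw [Finset.sum_const, Finset.card_erase_of_mem (Finset.mem_univ p), Finset.card_univ,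
      hcardD, smul_eq_mul] at h1
    have h2 := hle p
    have h3 : 1 ≤ D.ncard := (Set.ncard_pos (Set.toFinite _)).2 hne
    obtain ⟨d, hd⟩ : ∃ d, D.ncard = d + 1 := ⟨D.ncard - 1, by omega⟩
    rw [hd] at h1 ⊢
    rw [Nat.add_sub_cancel] at h1
    nlinarith
  have hsum : ∑ v : D, (degD v + (B v).card) ≤ ∑ v : D, I.w v :=
    Finset.sum_le_sum fun v _ => hkey v
  rw [Finset.sum_add_distrib] at hsum
  have he2 : ∑ v : D, degD v = e2 I.H D := by
    rw [hsumD, ← RI4_e2, hdegD]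
  have hdense := hL.dense
  obtain ⟨C, hC1, hC2, hC3⟩ := MP405E.lightExt Q (k + 1) B p
    (fun v hv => by
      rw [hdeg]
      exact (hkey v).trans (hp v hv))
    (by
      rw [hdeg]
      exact (hkey p).trans (hle p))
    (by omega)
    (by
      intro c
      have h1 := forb_light hF hc hD (c : ℕ)
      refine le_trans ?_ h1
      rw [← Set.ncard_coe_finset]
      refine Set.ncard_le_ncard_of_injOn (fun a : D => (a : V)) ?_ ?_ (Set.toFinite _)
      · intro a ha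
        rw [Finset.coe_filter] at ha
        exact ⟨a.2, (hBmem a c).1 ha.2⟩
      · intro a _ b _ h
        exact Subtype.ext h)
  obtain ⟨c0, hc0⟩ : ∃ c0 : V → V → ℕ, ∀ (x y : V) (hx : x ∈ D) (hy : y ∈ D),
      c0 x y = (C ⟨x, hx⟩ ⟨y, hy⟩ : ℕ) := by
    refine ⟨fun x y => if h : x ∈ D ∧ y ∈ D then (C ⟨x, h.1⟩ ⟨y, h.2⟩ : ℕ) else 0, ?_⟩
    intro x y hx hy
    dsimp only
    rw [dif_pos ⟨hx, hy⟩]
  refine ⟨c0, ?_, ?_, ?_, ?_⟩
  · intro x hx y hy _
    rw [hc0 x y hx hy, hc0 y x hy hx, hC1]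
  · intro x hx y hy _
    rw [hc0 x y hx hy]
    have := (C ⟨x, hx⟩ ⟨y, hy⟩).isLt
    omega
  · intro x hx y hy z hz hxy hxz hyz h
    rw [hc0 x y hx hy, hc0 x z hx hz] at h
    have h1 := hC2 ⟨x, hx⟩ ⟨y, hy⟩ ⟨z, hz⟩ (by rw [hQ]; exact hxy) (by rw [hQ]; exact hxz)
      (Fin.ext h)
    exact hyz (congrArg Subtype.val h1)
  · intro x hx y hy hxy h
    rw [hc0 x y hx hy] at h
    exact hC3 ⟨x, hx⟩ ⟨y, hy⟩ (by rw [hQ]; exact hxy) ((hBmem _ _).2 h)

end RI

end RowRI4

/-! ### row RI5 -/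

section RowRI5
variable {V : Type}
variable {I : Inp V} {L k : ℕ} {F : Set (Set V)} {M : SimpleGraph V} {c' c1 c0 : V → V → ℕ}

/-- two lumps of the family with a common vertex are equal -/
theorem RI5_uniq (hF : Fam L (k + 1) I F) {D D' : Set V} (hD : D ∈ F) (hD' : D' ∈ F) {x : V}
    (hx : x ∈ D) (hx' : x ∈ D') : D = D' :=
  hF.disj D hD D' hD' ⟨x, hx, x, hx', I.eqv.refl x⟩

/-- an edge of `I.H` is a `plus`-edge or lies inside a lump -/
theorem RI5_cases {x y : V} (h : I.H.Adj x y) :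
    (I.plus F).H.Adj x y ∨ ∃ D ∈ F, x ∈ D ∧ y ∈ D := by
  classical
  by_cases hh : ∃ D ∈ F, x ∈ D ∧ y ∈ D
  · exact Or.inr hh
  · left
    refine ⟨h, fun D hD hxy => hh ⟨D, hD, hxy.1, hxy.2⟩⟩

theorem reinsert [Finite V] (hF : Fam L (k + 1) I F) (hle : ∀ x, I.w x ≤ k + 2)
    (hfar : ∀ x y, I.w x = k + 2 → I.w y = k + 2 → I.near L x y → I.E x y)
    (hc : Col (k + 1) (I.plus F) c1) (c0 : V → V → ℕ) :
    ∃ c, Col (k + 1) I c ∧ (∀ x y, (I.plus F).H.Adj x y → c x y = c1 x y) ∧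
      ∀ D ∈ F, OKon I F (k + 1) c1 D c0 → ∀ x ∈ D, ∀ y ∈ D, I.H.Adj x y → c x y = c0 x y := by
  classical
  have hch : ∀ D : Set V, ∃ cD : V → V → ℕ, D ∈ F → (OKon I F (k + 1) c1 D cD ∧
      (OKon I F (k + 1) c1 D c0 → cD = c0)) := by
    intro D
    by_cases hD : D ∈ F
    · by_cases h0 : OKon I F (k + 1) c1 D c0
      · exact ⟨c0, fun _ => ⟨h0, fun _ => rfl⟩⟩
      · obtain ⟨cD, hcD⟩ := lump_ext hF hle hfar hc hD
        exact ⟨cD, fun _ => ⟨hcD, fun h => absurd h h0⟩⟩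
    · exact ⟨c0, fun h => absurd h hD⟩
  choose cD hcD using hch
  set c : V → V → ℕ := fun x y =>
    if h : ∃ D ∈ F, x ∈ D ∧ y ∈ D then cD h.choose x y else c1 x y with hcdef
  have hA : ∀ D ∈ F, ∀ x ∈ D, ∀ y ∈ D, c x y = cD D x y := by
    intro D hD x hx y hy
    have h : ∃ D ∈ F, x ∈ D ∧ y ∈ D := ⟨D, hD, hx, hy⟩
    have hs := h.choose_spec
    have he : h.choose = D := RI5_uniq hF hs.1 hD hs.2.1 hx
    show (if h : ∃ D ∈ F, x ∈ D ∧ y ∈ D then cD h.choose x y else c1 x y) = cD D x y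
    rw [dif_pos h, he]
  have hB : ∀ x y, (I.plus F).H.Adj x y → c x y = c1 x y := by
    intro x y hxy
    have h : ¬ ∃ D ∈ F, x ∈ D ∧ y ∈ D := by
      rintro ⟨D, hD, hx, hy⟩
      exact hxy.2 D hD ⟨hx, hy⟩
    show (if h : ∃ D ∈ F, x ∈ D ∧ y ∈ D then cD h.choose x y else c1 x y) = c1 x y
    rw [dif_neg h]
  refine ⟨c, ⟨?_, ?_, ?_, ?_⟩, hB, ?_⟩
  · intro x y hxy
    rcases RI5_cases (F := F) hxy with h | ⟨D, hD, hx, hy⟩
    · rw [hB x y h, hB y x h.symm]
      exact hc.symm x y h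
    · rw [hA D hD x hx y hy, hA D hD y hy x hx]
      exact (hcD D hD).1.symm x hx y hy hxy
  · intro x y hxy
    rcases RI5_cases (F := F) hxy with h | ⟨D, hD, hx, hy⟩
    · rw [hB x y h]
      exact hc.le x y h
    · rw [hA D hD x hx y hy]
      exact (hcD D hD).1.le x hx y hy hxy
  · intro x y z hxy hxz hyz
    rcases RI5_cases (F := F) hxy with h | ⟨D, hD, hx, hy⟩
    · rcases RI5_cases (F := F) hxz with h' | ⟨D, hD, hx, hz⟩
      · rw [hB x y h, hB x z h']
        exact hc.proper x y z h h' hyz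
      · rw [hB x y h, hA D hD x hx z hz]
        intro he
        exact (hcD D hD).1.avoid x hx z hz hxz (Or.inl ⟨y, h, he⟩)
    · rcases RI5_cases (F := F) hxz with h' | ⟨D', hD', hx', hz⟩
      · rw [hB x z h', hA D hD x hx y hy]
        intro he
        exact (hcD D hD).1.avoid x hx y hy hxy (Or.inl ⟨z, h', he.symm⟩)
      · have hDD : D' = D := RI5_uniq hF hD' hD hx' hx
        subst hDD
        rw [hA D' hD x hx y hy, hA D' hD x hx z hz]
        exact (hcD D' hD).1.proper x hx y hy z hz hxy hxz hyz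
  · intro x a
    by_cases hin : ∃ p : V × V, (I.E x p.1 ∧ I.H.Adj p.1 p.2 ∧ c p.1 p.2 = a) ∧
        ∃ D ∈ F, p.1 ∈ D ∧ p.2 ∈ D
    · obtain ⟨⟨v, y0⟩, ⟨hxv, hvy, hca⟩, D, hD, hv, hy⟩ := hin
      simp only at hxv hvy hca hv hy
      rw [hA D hD v hv y0 hy] at hca
      have hav := (hcD D hD).1.avoid v hv y0 hy hvy
      rw [hca] at hav
      have h1 : ∀ y, (I.plus F).H.Adj v y → c1 v y ≠ a := fun y hy' he =>
        hav (Or.inl ⟨y, hy', he⟩)
      have h2 : {p : V × V | I.E v p.1 ∧ p.1 ≠ v ∧ (I.plus F).H.Adj p.1 p.2 ∧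
          c1 p.1 p.2 = a}.ncard < 2 := by
        by_contra h
        exact hav (Or.inr (not_lt.1 h))
      have hsub : {p : V × V | I.E x p.1 ∧ I.H.Adj p.1 p.2 ∧ c p.1 p.2 = a} ⊆
          insert (v, y0) {p : V × V | I.E v p.1 ∧ p.1 ≠ v ∧ (I.plus F).H.Adj p.1 p.2 ∧
          c1 p.1 p.2 = a} := by
        rintro ⟨u, z⟩ ⟨hxu, huz, hcu⟩
        simp only at hxu huz hcu
        have hvu : I.E v u := I.eqv.trans (I.eqv.symm hxv) hxu
        rcases RI5_cases (F := F) huz with h | ⟨D', hD', hu, hz⟩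
        · right
          rw [hB u z h] at hcu
          refine ⟨hvu, ?_, h, hcu⟩
          rintro rfl
          exact h1 z h hcu
        · left
          have hDD : D = D' := hF.disj D hD D' hD' ⟨v, hv, u, hu, hvu⟩
          subst hDD
          have hvu' : v = u := (hF.lump D hD).one v hv u hu hvu
          subst hvu'
          rw [hA D hD v hv z hz] at hcu
          by_contra hne
          have hyz : y0 ≠ z := by
            rintro rfl
            exact hne rfl
          exact (hcD D hD).1.proper v hv y0 hy z hz hvy huz hyz (hca.trans hcu.symm)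
      calc {p : V × V | I.E x p.1 ∧ I.H.Adj p.1 p.2 ∧ c p.1 p.2 = a}.ncard
          ≤ (insert (v, y0) {p : V × V | I.E v p.1 ∧ p.1 ≠ v ∧ (I.plus F).H.Adj p.1 p.2 ∧
          c1 p.1 p.2 = a}).ncard := Set.ncard_le_ncard hsub (Set.toFinite _)
        _ ≤ {p : V × V | I.E v p.1 ∧ p.1 ≠ v ∧ (I.plus F).H.Adj p.1 p.2 ∧
          c1 p.1 p.2 = a}.ncard + 1 := Set.ncard_insert_le _ _
        _ ≤ 2 := by omega
    · have hsub : {p : V × V | I.E x p.1 ∧ I.H.Adj p.1 p.2 ∧ c p.1 p.2 = a} ⊆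
          {p : V × V | (I.plus F).E x p.1 ∧ (I.plus F).H.Adj p.1 p.2 ∧ c1 p.1 p.2 = a} := by
        rintro ⟨u, z⟩ ⟨hxu, huz, hcu⟩
        simp only at hxu huz hcu
        rcases RI5_cases (F := F) huz with h | hDD
        · rw [hB u z h] at hcu
          exact ⟨Relation.EqvGen.rel _ _ (Or.inl hxu), h, hcu⟩
        · exact absurd ⟨(u, z), ⟨hxu, huz, hcu⟩, hDD⟩ hin
      exact (Set.ncard_le_ncard hsub (Set.toFinite _)).trans (hc.light x a)
  · intro D hD hok x hx y hy _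
    rw [hA D hD x hx y hy, (hcD D hD).2 hok]

end RowRI5

/-! ### row RI6 -/

section RowRI6
variable {V : Type}

section RI

variable {I : Inp V} {L k : ℕ} {F : Set (Set V)} {M : SimpleGraph V} {c' c1 c0 : V → V → ℕ}

theorem okon_of_agree [Finite V] {I' : Inp V} {j : ℕ} {D : Set V} (hD : D ∈ F) (hc0 : Col j I' c0)
    (hA : Agree I I' (I.nbd 1 D))
    (hcc : ∀ x ∈ I.nbd 1 D, ∀ y, (I.plus F).H.Adj x y → c1 x y = c0 x y) :
    OKon I F j c1 D c0 := by
  have hsub : ∀ x ∈ D, x ∈ I.nbd 1 D := fun x hx => Inp.subset_nbd 1 D hx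
  have hadj : ∀ x ∈ D, ∀ y, I.H.Adj x y → I'.H.Adj x y := fun x hx y h =>
    (hA x (hsub x hx) y).1.1 h
  refine ⟨fun x hx y _ h => hc0.symm x y (hadj x hx y h), fun x hx y _ h =>
    hc0.le x y (hadj x hx y h), fun x hx y _ z _ h h' hyz => hc0.proper x y z (hadj x hx y h)
    (hadj x hx z h') hyz, ?_⟩
  intro x hx y hy hxy ha
  rcases ha with ⟨z, hz, hzc⟩ | h2
  · rw [hcc x (hsub x hx) z hz] at hzc
    have hzy : z ≠ y := by
      rintro rfl
      exact hz.2 D hD ⟨hx, hy⟩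
    exact hc0.proper x z y (hadj x hx z hz.1) (hadj x hx y hxy) hzy hzc
  · have h3 := hc0.light x (c0 x y)
    have hfin : {p : V × V | I'.E x p.1 ∧ I'.H.Adj p.1 p.2 ∧ c0 p.1 p.2 = c0 x y}.Finite :=
      Set.toFinite _
    have hins : insert (x, y) {p : V × V | I.E x p.1 ∧ p.1 ≠ x ∧ (I.plus F).H.Adj p.1 p.2 ∧
        c1 p.1 p.2 = c0 x y} ⊆
        {p : V × V | I'.E x p.1 ∧ I'.H.Adj p.1 p.2 ∧ c0 p.1 p.2 = c0 x y} := by
      intro p hp
      rcases hp with rfl | ⟨h4, _, h5, h6⟩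
      · exact ⟨I'.eqv.refl x, hadj x hx y hxy, rfl⟩
      · have h7 : p.1 ∈ I.nbd 1 D := ⟨x, hx, Inp.near_E h4⟩
        refine ⟨(hA x (hsub x hx) p.1).2.1 h4, (hA p.1 h7 p.2).1.1 h5.1, ?_⟩
        rw [← hcc p.1 h7 p.2 h5]
        exact h6
    have h8 := Set.ncard_le_ncard hins hfin
    rw [Set.ncard_insert_of_notMem] at h8
    · omega
    · rintro ⟨_, h9, _⟩
      exact h9 rfl
end RI

end RowRI6

end Pool.MP405d56
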