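import Pool.Agent.Lib.MP_405d56_lc.O2.TT13

/-! # MP_405d56_lc: the Tutte part (all rows proved, files `O2/TP1` ... `O2/TT13`) -/
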