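import Pool.Agent.Lib.MP_405d56_lc.O.Gad
import Pool.Agent.Lib.MP_405d56_lc.Transversal

/-!
# MP_405d56_lc, outer process: definitions of the one-level part
-/

open Set

namespace Pool.MP405d56

variable {V : Type} {W : Type}

/-- the graph of two involutions without the points of `Sw` -/
def GG (μ0 μ1 : W → W) (Sw : Set W) : SimpleGraph W where
  Adj v w := v ≠ w ∧ v ∉ Sw ∧ w ∉ Sw ∧
    ((μ0 v = w ∧ μ0 w = v) ∨ (μ1 v = w ∧ μ1 w = v))
  symm := ⟨fun _ _ h => ⟨h.1.symm, h.2.2.1, h.2.1, h.2.2.2.imp (fun h => ⟨h.2, h.1⟩)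
    (fun h => ⟨h.2, h.1⟩)⟩⟩
  loopless := ⟨fun _ h => h.1 rfl⟩

/-- `min (distance of x from A) b` -/
noncomputable def hgt (J : Inp V) (A : Set V) (b : ℕ) (x : V) : ℕ :=
  {n : ℕ | n < b ∧ x ∉ J.nbd n A}.ncard

/-- the old special classes and, near `A`, the new special classes of `M'` -/
def fbSet (J : Inp V) (M' : SimpleGraph V) (j m : ℕ) (A : Set V) : Set V :=
  {x | J.w x = j + 1 ∨ ∃ y, J.E x y ∧ y ∈ J.nbd m A ∧ cnt J.E M' y + j = J.w y}


end Pool.MP405d56
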