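import Pool.Agent.Lib.MP_405d56_lc.O.TSkel
import Pool.Agent.Lib.MP_405d56_lc.O2.W8b

/-! # MP_405d56_lc: the one-level part (all rows proved, files `O2/W1a` ... `O2/W8b`) -/
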